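import Pool.Agent.Helper49E.Split

/-!
# The decomposition of integral positive definite functions
-/

set_option autoImplicit false
set_option linter.unusedSectionVars false

namespace Pool.Agent.Helper49E

open Filter Topology ComplexConjugate

section
variable {Γ : Type} [AddCommGroup Γ]

/-- an integral positive definite function -/
def Pdi (φ : Γ → ℤ) : Prop := PD fun g => (φ g : ℂ)

/-- the function vanishes outside finitely many cosets of the set of periods -/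
def Bas (φ : Γ → ℤ) : Prop := ∃ s : Finset Γ, ∀ g, φ g ≠ 0 → ∃ a ∈ s, φ (g - a) = φ 0

theorem Pdi.zero_nonneg {φ : Γ → ℤ} (h : Pdi φ) : 0 ≤ φ 0 := by
  have := PD.zero_nonneg h
  simpa using this

theorem Pdi.eq_zero {φ : Γ → ℤ} (h : Pdi φ) (h0 : φ 0 = 0) (g : Γ) : φ g = 0 := by
  have := PD.eq_zero h (by simp [h0]) g
  exact_mod_cast this

theorem Pdi.le {φ : Γ → ℤ} (h : Pdi φ) (g : Γ) : |φ g| ≤ φ 0 := by
  have := PD.norm_le h g
  rw [Complex.norm_intCast, Complex.intCast_re] at this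
  exact_mod_cast this

theorem Pdi.symm {φ : Γ → ℤ} (h : Pdi φ) (g : Γ) : φ (-g) = φ g := by
  have := PD.symm h g
  rw [map_intCast] at this
  exact_mod_cast this

theorem to_int {f : Γ → ℂ} (h : PD f) (hi : IsI f) :
    ∃ ψ : Γ → ℤ, Pdi ψ ∧ ∀ g, f g = ψ g := by
  choose ψ hψ using hi
  refine ⟨ψ, ?_, hψ⟩
  unfold Pdi
  have : (fun g => (ψ g : ℂ)) = f := funext fun g => (hψ g).symm
  rw [this]
  exact h

theorem split {φ : Γ → ℤ} (h : Pdi φ) : Bas φ ∨ ∃ φ₁ φ₂ : Γ → ℤ, Pdi φ₁ ∧ Pdi φ₂ ∧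
    (∀ g, φ g = φ₁ g + φ₂ g) ∧ 1 ≤ φ₁ 0 ∧ 1 ≤ φ₂ 0 := by
  classical
  by_cases hb : Bas φ
  · exact Or.inl hb
  right
  unfold Bas at hb
  push Not at hb
  set S : Finset Γ → Set Γ := fun s => {g | φ g ≠ 0 ∧ ∀ a ∈ s, φ (g - a) ≠ φ 0} with hS
  have hne : (⨅ s, 𝓟 (S s)).NeBot := by
    refine Filter.iInf_neBot_of_directed' ?_ fun s => ?_
    · intro s t
      refine ⟨s ∪ t, ?_, ?_⟩
      · exact Filter.principal_mono.2 fun g hg => ⟨hg.1, fun a ha => hg.2 a
          (Finset.mem_union_left t ha)⟩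
      · exact Filter.principal_mono.2 fun g hg => ⟨hg.1, fun a ha => hg.2 a
          (Finset.mem_union_right s ha)⟩
    · rw [Filter.principal_neBot_iff]
      obtain ⟨g, hg, hga⟩ := hb s
      exact ⟨g, hg, hga⟩
  set 𝒲 : Ultrafilter Γ := Ultrafilter.of (⨅ s, 𝓟 (S s)) with h𝒲
  have hmem : ∀ s, S s ∈ (𝒲 : Filter Γ) := fun s =>
    Ultrafilter.of_le _ (Filter.mem_iInf_of_mem s (Filter.mem_principal_self _))
  have hi : IsI fun g => (φ g : ℂ) := fun g => ⟨φ g, rfl⟩
  have h' : PD fun g => (φ g : ℂ) := h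
  obtain ⟨φ₁, p1, e1⟩ := to_int (h'.mean (𝒲 := 𝒲)) (hi.av h'.bd)
  obtain ⟨φ₂, p2, e2⟩ := to_int (h'.sub_av (𝒲 := 𝒲)) (hi.sub (hi.av h'.bd))
  have hsum : ∀ g, φ g = φ₁ g + φ₂ g := by
    intro g
    have h1 := e2 g
    rw [e1 g] at h1
    have h2 : (φ g : ℂ) = ((φ₁ g + φ₂ g : ℤ) : ℂ) := by
      push_cast
      rw [← h1]
      ring
    exact_mod_cast h2
  refine ⟨φ₁, φ₂, p1, p2, hsum, ?_, ?_⟩
  · by_contra hcon
    have h0 : φ₁ 0 = 0 := by
      have := p1.zero_nonneg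
      omega
    have h1 : av 𝒲 (fun g => (φ g : ℂ)) = 0 := by
      funext g
      rw [e1 g, p1.eq_zero h0 g]
      simp
    have h2 := vanish h' hi h1
    obtain ⟨g, hg, hg'⟩ := (h2.and (hmem ∅)).exists
    exact hg'.1 (by exact_mod_cast hg)
  · by_contra hcon
    have h0 : φ₂ 0 = 0 := by
      have := p2.zero_nonneg
      omega
    have h1 : av 𝒲 (fun g => (φ g : ℂ)) = fun g => (φ g : ℂ) := by
      funext g
      rw [e1 g]
      have := hsum g
      rw [p2.eq_zero h0 g, add_zero] at this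
      rw [this]
    obtain ⟨h₀, hh⟩ := conc h' hi h1
    obtain ⟨g, hg, hg'⟩ := (hh.and (hmem {h₀})).exists
    exact hg'.2 h₀ (Finset.mem_singleton_self _) (by exact_mod_cast hg)

/-- **decomposition of integral positive definite functions on a commutative group** -/
theorem decompose (n : ℕ) : ∀ φ : Γ → ℤ, Pdi φ → φ 0 = n →
    ∃ l : List (Γ → ℤ), (∀ f ∈ l, Pdi f ∧ Bas f ∧ 1 ≤ f 0) ∧ l.length ≤ n ∧
      ∀ g, φ g = (l.map fun f => f g).sum := by
  induction n using Nat.strong_induction_on with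
  | _ n ih =>
    intro φ h h0
    rcases split h with hb | ⟨φ₁, φ₂, p1, p2, hsum, a1, a2⟩
    · rcases Nat.eq_zero_or_pos n with hn | hn
      · refine ⟨[], by simp, by simp, fun g => ?_⟩
        rw [h.eq_zero (by rw [h0, hn]; rfl) g]
        simp
      · refine ⟨[φ], ?_, hn, by simp⟩
        intro f hf
        rw [List.mem_singleton] at hf
        subst hf
        exact ⟨h, hb, by omega⟩
    · have hs := hsum 0
      obtain ⟨l1, b1, c1, d1⟩ := ih (φ₁ 0).toNat (by omega) φ₁ p1 (by omega)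
      obtain ⟨l2, b2, c2, d2⟩ := ih (φ₂ 0).toNat (by omega) φ₂ p2 (by omega)
      refine ⟨l1 ++ l2, ?_, ?_, fun g => ?_⟩
      · intro f hf
        rcases List.mem_append.1 hf with hf | hf
        · exact b1 f hf
        · exact b2 f hf
      · rw [List.length_append]
        omega
      · rw [List.map_append, List.sum_append, ← d1, ← d2]
        exact hsum g

theorem period {φ : Γ → ℤ} (h : Pdi φ) {g : Γ} (hg : φ g = φ 0) (k : Γ) : φ (k + g) = φ k := by
  obtain ⟨G⟩ := gns (show PD fun g => (φ g : ℂ) from h)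
  have h1 : G.e (k + g) = G.e k := by
    rw [← sub_eq_zero, ← norm_eq_zero]
    have h2 : ‖G.e (k + g) - G.e k‖ ^ 2 = 0 := by
      rw [@norm_sub_sq ℂ, G.sq, G.sq]
      have h5 : RCLike.re (inner ℂ (G.e (k + g)) (G.e k) : ℂ) = (φ 0 : ℝ) := by
        rw [inner_re_symm, G.inner_e]
        have : k + g - k = g := by abel
        rw [this, hg]
        simp
      rw [h5]
      simp only [Complex.intCast_re]
      ring
    exact pow_eq_zero_iff two_ne_zero |>.1 h2
  have h2 := G.inner_e 0 (k + g)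
  rw [h1, G.inner_e] at h2
  simp only [sub_zero] at h2
  exact_mod_cast h2.symm

/-- the group of periods -/
def per {φ : Γ → ℤ} (h : Pdi φ) : AddSubgroup Γ where
  carrier := {g | φ g = φ 0}
  zero_mem' := rfl
  add_mem' {a b} ha hb := (period h hb a).trans ha
  neg_mem' {a} ha := (h.symm a).trans ha

theorem mem_per {φ : Γ → ℤ} (h : Pdi φ) {g : Γ} : g ∈ per h ↔ φ g = φ 0 := Iff.rfl

/-- normal form: a subgroup and finitely many coefficients, at representatives of different cosets -/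
theorem normal_form {φ : Γ → ℤ} (h : Pdi φ) (hb : Bas φ) :
    ∃ (Δ : AddSubgroup Γ) (s : Finset Γ), (∀ a ∈ s, ∀ b ∈ s, b - a ∈ Δ → a = b) ∧
      (∀ g, ∀ d ∈ Δ, φ (g + d) = φ g) ∧ ∀ g, φ g ≠ 0 → ∃ a ∈ s, g - a ∈ Δ := by
  classical
  obtain ⟨s, hs⟩ := hb
  set ρ : Γ → Γ := fun a => (QuotientAddGroup.mk a : Γ ⧸ per h).out with hρ
  have h1 : ∀ a, (QuotientAddGroup.mk (ρ a) : Γ ⧸ per h) = QuotientAddGroup.mk a := fun a =>
    Quotient.out_eq _
  have h2 : ∀ a b : Γ, (QuotientAddGroup.mk a : Γ ⧸ per h) = QuotientAddGroup.mk b ↔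
      b - a ∈ per h := fun a b => by
    rw [QuotientAddGroup.eq]
    have : -a + b = b - a := by abel
    rw [this]
  set t := s.image ρ with ht
  have hinj : ∀ a ∈ t, ∀ b ∈ t, b - a ∈ per h → a = b := by
    intro a ha b hb hab
    obtain ⟨a', -, rfl⟩ := Finset.mem_image.1 ha
    obtain ⟨b', -, rfl⟩ := Finset.mem_image.1 hb
    have h3 := (h2 _ _).2 hab
    rw [h1, h1] at h3
    rw [hρ]
    simp only
    rw [h3]
  have himg : ∀ a ∈ s, ∃ b ∈ t, a - b ∈ per h := by
    intro a ha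
    exact ⟨ρ a, Finset.mem_image_of_mem _ ha, (h2 _ _).1 (h1 a)⟩
  refine ⟨per h, t, hinj, fun g d hd => period h hd g, fun g hg => ?_⟩
  obtain ⟨a, ha, hga⟩ := hs g hg
  obtain ⟨b, hb, hab⟩ := himg a ha
  refine ⟨b, hb, ?_⟩
  have h1 : g - a ∈ per h := hga
  have h2 : g - b = (g - a) + (a - b) := by abel
  rw [h2]
  exact (per h).add_mem h1 hab

end

end Pool.Agent.Helper49E
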