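import Pool.Agent.HS37.HT.Defs

/-!
# Adams operations on the `L`-functions of motives: definitions

`K` is a number field, the primes of `K` are the elements of `HeightOneSpectrum (𝓞 K)`, and `Nv` is the
absolute norm of a prime `v`.  Hecke characters (`IsHecke`, unitary, of type (A), with the twists
`Nv^{-it}`), equality at almost all primes (`Equivalent`) and Euler products (`LFun`) are defined in
`Pool.Agent.HS37.HT.Defs`.
-/

set_option autoImplicit false

namespace Pool.Agent.Helper49E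

open NumberField IsDedekindDomain Filter Topology Polynomial
open Pool.Agent.HS37.HT (IsHecke Equivalent LFun)

/-- The cohomology `H^w(M)` of a motive `M` over the number field `K` in one degree, as far as the
Frobenius eigenvalues at almost all primes are concerned: `frob v` lists the eigenvalues of the geometric
Frobenius at `v`, with multiplicities and in any order, and for almost all `v` they have absolute value
`Nv^{w/2}`, `w = weight`.  By the theorem of Deligne every Chow motive `M = (X, p, r)` over `K` and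
every integer `w` give such data, for every choice of the auxiliary primes `ℓ_v`: `rank` is the dimension
of `H^w(M)`, and almost all `v` are primes of good reduction of `X`. -/
structure Motive (K : Type) [Field K] [NumberField K] where
  weight : ℤ
  rank : ℕ
  frob : HeightOneSpectrum (𝓞 K) → Fin rank → ℂ
  pure : ∀ᶠ v in cofinite, ∀ j, ‖frob v j‖ = (Ideal.absNorm v.asIdeal : ℝ) ^ ((weight : ℝ) / 2)

section
variable {K : Type} [Field K] [NumberField K] {r : ℕ} (V : Fin r → Motive K)

/-- The number `N = N_1 ⋯ N_r` of choices of one eigenvalue of each `V_i`. -/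
def rk : ℕ := ∏ i, (V i).rank

/-- The eigenvalue `α_1^{k_1} ⋯ α_r^{k_r}` of Frobenius at `v` on `ψ^{k_1} V_1 ⊗ ⋯ ⊗ ψ^{k_r} V_r`; the
eigenvalues `α_i` of `V_i` are chosen by `j`. -/
noncomputable def eig (k : Fin r → ℤ) (v : HeightOneSpectrum (𝓞 K)) (j : ∀ i, Fin (V i).rank) : ℂ :=
  ∏ i, (V i).frob v (j i) ^ k i

/-- The point `e_k = (k_1 w_1 + ⋯ + k_r w_r)/2 + 1` at the edge of absolute convergence. -/
noncomputable def edge (k : Fin r → ℤ) : ℂ := ((∑ i, k i * (V i).weight : ℤ) : ℂ) / 2 + 1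

/-- The polynomials `B v` are the Euler factors of the `L`-function `L_{k,χ}` of
`ψ^{k_1} V_1 ⊗ ⋯ ⊗ ψ^{k_r} V_r ⊗ χ`: at almost all primes `B_v(z)` is the product of `1 - α χ(v) z`
over the `N` eigenvalues `α = α_1^{k_1} ⋯ α_r^{k_r}`.  At the other primes `B v` is an arbitrary
polynomial, and no factor `1 / B_v(Nv^{-s})` has a pole at `e_k`. -/
def IsEuler (k : Fin r → ℤ) (χ : HeightOneSpectrum (𝓞 K) → ℂ)
    (B : HeightOneSpectrum (𝓞 K) → ℂ[X]) : Prop :=
  (∀ᶠ v in cofinite, ∀ z : ℂ,
    (B v).eval z = ∏ j : ∀ i, Fin (V i).rank, (1 - eig V k v j * χ v * z)) ∧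
  ∀ v, (B v).eval ((Ideal.absNorm v.asIdeal : ℂ) ^ (-(edge V k))) ≠ 0

/-- `log |L_{k,χ}(e_k + ε)| / log(1/ε)`; for a function with a meromorphic continuation of order `m` at
`e_k` it tends to `-m` as `ε → 0+`. -/
noncomputable def size (k : Fin r → ℤ) (B : HeightOneSpectrum (𝓞 K) → ℂ[X]) (ε : ℝ) : ℝ :=
  Real.log ‖LFun B (edge V k + ε)‖ / Real.log (1 / ε)

/-- `L_{k,χ}` has the order `m` at `e_k` (positive for a zero, negative for a pole), measured from the
right: `|L_{k,χ}(e_k + ε)| = ε^{m + o(1)}`. -/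
def HasOrder (k : Fin r → ℤ) (χ : HeightOneSpectrum (𝓞 K) → ℂ) (m : ℤ) : Prop :=
  ∃ B : HeightOneSpectrum (𝓞 K) → ℂ[X], IsEuler V k χ B ∧
    Tendsto (size V k B) (𝓝[>] 0) (𝓝 (-(m : ℝ)))

/-- `L_{k,χ}` has a meromorphic continuation to a neighbourhood of `e_k`, of order `m` at `e_k`. -/
def Continues (k : Fin r → ℤ) (χ : HeightOneSpectrum (𝓞 K) → ℂ) (m : ℤ) : Prop :=
  ∃ (B : HeightOneSpectrum (𝓞 K) → ℂ[X]) (Λ : ℂ → ℂ), IsEuler V k χ B ∧
    MeromorphicAt Λ (edge V k) ∧
    (∀ᶠ s in 𝓝 (edge V k), (edge V k).re < s.re → Λ s = LFun B s) ∧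
    meromorphicOrderAt Λ (edge V k) = m

/-- The angles `arg α_i / 2π` modulo `1` of the eigenvalues of Frobenius at `v` that are chosen by `j`,
a point of the torus `(ℝ/ℤ)^r`. -/
noncomputable def angle (v : HeightOneSpectrum (𝓞 K)) (j : ∀ i, Fin (V i).rank) :
    UnitAddTorus (Fin r) := fun i => ((((V i).frob v (j i)).arg / (2 * Real.pi) : ℝ) : UnitAddCircle)

/-- The average of the values of `F` at the tuples of angles, with respect to the analytic density of
the primes: `(1 / log(1/ε)) ∑_v Nv^{-1-ε} ∑_j F(angles)`. -/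
noncomputable def avg (F : UnitAddTorus (Fin r) → ℂ) (ε : ℝ) : ℂ :=
  (∑' v : HeightOneSpectrum (𝓞 K), (∑ j : ∀ i, Fin (V i).rank, F (angle V v j)) *
    (((Ideal.absNorm v.asIdeal : ℝ) ^ (-(1 + ε)) : ℝ) : ℂ)) / (Real.log (1 / ε) : ℂ)

/-- `χ` is an injective homomorphism from the group `G` to the group of Hecke characters of `K`, modulo
equality at almost all primes. -/
structure HeckeGroup {G : Type} [AddCommGroup G] (χ : G → HeightOneSpectrum (𝓞 K) → ℂ) : Prop where
  hecke : ∀ g, IsHecke (χ g)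
  add : ∀ g h, Equivalent (χ (g + h)) fun v => χ g v * χ h v
  inj : ∀ g, g ≠ 0 → ¬ Equivalent (χ g) fun _ => 1

end

open Classical in
/-- The sum of the coefficients `c_a` with `a ≡ x` modulo `Δ`. -/
noncomputable def coef {Γ : Type} [AddCommGroup Γ] (Δ : AddSubgroup Γ) (c : Γ →₀ ℤ) (x : Γ) : ℤ :=
  ∑ a ∈ c.support, if x - a ∈ Δ then c a else 0

/-- The function `f` on the group `Γ` is positive definite. -/
def PosDef {Γ : Type} [AddCommGroup Γ] (f : Γ → ℤ) : Prop :=
  ∀ a : Γ →₀ ℝ, 0 ≤ a.sum fun x s => a.sum fun y t => s * t * (f (y - x) : ℝ)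

section
variable {r : ℕ}

/-- The closed subgroup of the torus that corresponds to a subgroup `Δ` of `ℤ^r`: the common kernel of
the characters in `Δ`.  (All closed subgroups are of this form.) -/
def ker (Δ : AddSubgroup (Fin r → ℤ)) : Set (UnitAddTorus (Fin r)) :=
  {t | ∀ d ∈ Δ, UnitAddTorus.mFourier d t = 1}

/-- `μ` is the Haar measure of the closed subgroup of the torus that corresponds to `Δ`, normalised to
total mass `1`. -/
def IsHaar (Δ : AddSubgroup (Fin r → ℤ)) (μ : MeasureTheory.Measure (UnitAddTorus (Fin r))) :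
    Prop :=
  μ Set.univ = 1 ∧ μ (ker Δ)ᶜ = 0 ∧ ∀ h ∈ ker Δ, μ.map (fun t => h + t) = μ

/-- The trigonometric polynomial `∑_a c_a exp(-2πi (a_1 t_1 + ⋯ + a_r t_r))`. -/
noncomputable def trig (c : (Fin r → ℤ) →₀ ℤ) (t : UnitAddTorus (Fin r)) : ℂ :=
  ∑ a ∈ c.support, (c a : ℂ) * UnitAddTorus.mFourier (-a) t

end

end Pool.Agent.Helper49E
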