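import Pool.Agent.Helper49E.Main

/-!
# Adams operations at the edge: the structure of all orders, and the law of the angles
-/

set_option autoImplicit false
set_option linter.unusedSectionVars false

namespace Pool.Agent.Helper49E

open NumberField Complex Filter Topology ComplexConjugate IsDedekindDomain MeasureTheory Polynomial
open Pool.Agent.H341R2 Pool.Agent.W540.BE Pool.Agent.HS37.HK UnitAddTorus
open Pool.Agent.HS37.HT (IsHecke Equivalent LFun ev_of_ultra isHecke_hk exists_U)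

section
variable {K : Type} [Field K] [NumberField K] {r : ℕ} {V : Fin r → Motive K}
variable {G : Type} [AddCommGroup G] {χ : G → HeightOneSpectrum (𝓞 K) → ℂ}

/-- the decomposition of the orders -/
theorem orders_pieces (h : HeckeGroup χ) {m : (Fin r → ℤ) × G → ℤ}
    (hm : ∀ x, x.1 ≠ 0 → HasOrder V x.1 (χ x.2) (m x)) :
    ∃ (n : ℕ) (f : Fin n → (Fin r → ℤ) × G → ℤ) (Δ : Fin n → AddSubgroup ((Fin r → ℤ) × G))
      (c : Fin n → (Fin r → ℤ) × G →₀ ℤ), n ≤ rk V ∧ (∀ i, IsPiece (f i) (Δ i) (c i)) ∧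
      (∀ x, x.1 ≠ 0 → m x = -∑ i, f i x) ∧ ∑ i, f i 0 = rk V ∧
      ∀ g : G, g ≠ 0 → ∑ i, f i (0, g) = 0 := by
  classical
  obtain ⟨χ', h', hae⟩ := exists_HG h
  obtain ⟨𝒰, hU⟩ := exists_U
  obtain ⟨z, hz, hpd⟩ := exists_mean V h' hU
  set φ : (Fin r → ℤ) × G → ℤ := fun x =>
    if x.1 = 0 then (if x.2 = 0 then (rk V : ℤ) else 0) else -m x with hφ
  have hval : ∀ x, (z x).re = φ x := by
    intro x
    by_cases hx : x.1 = 0
    · have hz' := hz x
      rw [hx] at hz'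
      simp only [um_zero] at hz'
      by_cases hx2 : x.2 = 0
      · have h1 : φ x = rk V := by
          rw [hφ]
          simp only
          rw [if_pos hx, if_pos hx2]
        rw [hx2] at hz'
        have h2 : AvC nm 𝒰 (fun v => (rk V : ℂ) * χ' 0 v) ((rk V : ℂ) * 1) :=
          AvC.const_mul (sysK hU) (h'.hk 0).bdc (mean_one h'.zero (sysK hU)) _
        rw [AvC.unique hz' h2, h1]
        simp
      · have h1 : φ x = 0 := by
          rw [hφ]
          simp only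
          rw [if_pos hx, if_neg hx2]
        have h2 : AvC nm 𝒰 (fun v => (rk V : ℂ) * χ' x.2 v) ((rk V : ℂ) * 0) := by
          refine AvC.const_mul (sysK hU) (h'.hk _).bdc ((h'.hk x.2).mean (fun h3 => ?_) (sysK hU)) _
          refine h.inj x.2 hx2 ?_
          filter_upwards [h3, hae x.2] with v e1 e2
          rw [← e2, e1]
        rw [AvC.unique hz' h2, h1]
        simp
    · have h1 : φ x = -m x := by
        rw [hφ]
        simp only
        rw [if_neg hx]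
      rw [h1, order_re h' hae hU hz (hm x hx)]
      push_cast
      rfl
  have hP : Pdi φ := by
    have h1 := hpd.re
    unfold Pdi
    have h2 : (fun x => ((z x).re : ℂ)) = fun x => (φ x : ℂ) := by
      funext x
      rw [hval x]
      push_cast
      rfl
    rwa [h2] at h1
  have h0 : φ 0 = rk V := by
    rw [hφ]
    simp
  obtain ⟨n, f, Δ, c, h1, h2, h3⟩ := pieces hP h0
  refine ⟨n, f, Δ, c, h1, h2, fun x hx => ?_, ?_, fun g hg => ?_⟩
  · rw [← h3 x, hφ]
    simp only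
    rw [if_neg hx, neg_neg]
  · rw [← h3, h0]
  · rw [← h3, hφ]
    simp only
    rw [if_pos trivial, if_neg hg]

/-- periods in the group of characters -/
theorem small_ker {n : ℕ} {f : Fin n → (Fin r → ℤ) × G → ℤ}
    {Δ : Fin n → AddSubgroup ((Fin r → ℤ) × G)} {c : Fin n → (Fin r → ℤ) × G →₀ ℤ}
    (h : ∀ i, IsPiece (f i) (Δ i) (c i)) {N : ℕ} (h0 : ∑ i, f i 0 = N)
    (h1 : ∀ g : G, g ≠ 0 → ∑ i, f i (0, g) = 0) (i : Fin n) (s : Finset G)
    (hs : ∀ g ∈ s, ((0, g) : (Fin r → ℤ) × G) ∈ Δ i) : s.card ≤ N := by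
  classical
  have hinj : Function.Injective fun g : G => ((0, g) : (Fin r → ℤ) × G) := fun a b hab =>
    congrArg Prod.snd hab
  rw [← Finset.card_image_of_injective s hinj]
  refine small h i _ ?_ h0 ?_
  · intro a ha
    obtain ⟨g, hg, rfl⟩ := Finset.mem_image.1 ha
    exact hs g hg
  · intro a ha b hb hab
    obtain ⟨g, hg, rfl⟩ := Finset.mem_image.1 ha
    obtain ⟨g', hg', rfl⟩ := Finset.mem_image.1 hb
    have h2 : ((0, g') : (Fin r → ℤ) × G) - (0, g) = (0, g' - g) := by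
      rw [Prod.mk_sub_mk, sub_zero]
    rw [h2]
    refine h1 _ fun h3 => hab ?_
    rw [sub_eq_zero] at h3
    rw [h3]

theorem smul_ne {l : (Fin r → ℤ) × G} (hl : l.1 ≠ 0) {j : ℤ} (hj : j ≠ 0) : (j • l).1 ≠ 0 := by
  rw [Prod.smul_fst]
  exact smul_ne_zero hj hl

theorem fin_line (x : (Fin r → ℤ) × G) {l : (Fin r → ℤ) × G} (hl : l.1 ≠ 0) :
    {j : ℤ | (x + j • l).1 = 0}.Finite := by
  refine Set.Subsingleton.finite fun j hj j' hj' => ?_
  by_contra hne
  refine smul_ne hl (sub_ne_zero.2 hne) ?_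
  have h1 : (x + j • l).1 = 0 := hj
  have h2 : (x + j' • l).1 = 0 := hj'
  have h3 : ((j - j') • l).1 = (x + j • l).1 - (x + j' • l).1 := by
    rw [sub_smul, Prod.fst_sub, Prod.fst_add, Prod.fst_add]
    abel
  rw [h3, h1, h2, sub_zero]

theorem Pdi.posDef {Γ : Type} [AddCommGroup Γ] {f : Γ → ℤ} (h : Pdi f) : PosDef f := by
  intro a
  have h2 := PD.fin h a.support fun x => (a x : ℂ)
  have h3 : (∑ x ∈ a.support, ∑ y ∈ a.support, conj ((a x : ℝ) : ℂ) * ((a y : ℝ) : ℂ) *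
      ((f (y - x) : ℤ) : ℂ)).re = a.sum fun x s => a.sum fun y t => s * t * (f (y - x) : ℝ) := by
    simp only [Finsupp.sum, Complex.re_sum]
    refine Finset.sum_congr rfl fun x _ => Finset.sum_congr rfl fun y _ => ?_
    rw [Complex.conj_ofReal, ← Complex.ofReal_mul, Complex.re_ofReal_mul, Complex.intCast_re]
  rw [h3] at h2
  exact h2

/-- **part 3** -/
theorem structure_thm (h : HeckeGroup χ) {m : (Fin r → ℤ) × G → ℤ}
    (hm : ∀ x, x.1 ≠ 0 → HasOrder V x.1 (χ x.2) (m x)) :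
    (∃ (n : ℕ) (Δ : Fin n → AddSubgroup ((Fin r → ℤ) × G))
      (c : Fin n → (Fin r → ℤ) × G →₀ ℤ), n ≤ rk V ∧
      (∀ i, PosDef (coef (Δ i) (c i)) ∧ 1 ≤ coef (Δ i) (c i) 0 ∧
        ∀ s : Finset G, (∀ g ∈ s, ((0, g) : (Fin r → ℤ) × G) ∈ Δ i) → s.card ≤ rk V) ∧
      ∀ x, x.1 ≠ 0 → m x = -∑ i, coef (Δ i) (c i) x) ∧
    (∀ l : (Fin r → ℤ) × G, l.1 ≠ 0 → ∃ P : ℕ, 1 ≤ P ∧ ∀ x,
      {j : ℤ | m (x + (j + P) • l) ≠ m (x + j • l)}.Finite) ∧
    ({x : (Fin r → ℤ) × G | x.1 ≠ 0 ∧ m x ≠ 0}.Infinite →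
      ∃ l : (Fin r → ℤ) × G, l.1 ≠ 0 ∧ ∀ j : ℕ, 1 ≤ j → m (j • l) < 0) := by
  classical
  obtain ⟨n, f, Δ, c, h1, h2, h3, h4, h5⟩ := orders_pieces h hm
  have h3' : ∀ x, x.1 ≠ 0 → m x = -∑ i, coef (Δ i) (c i) x := by
    intro x hx
    rw [h3 x hx]
    congr 1
    exact Finset.sum_congr rfl fun i _ => (h2 i).co x
  have hco : ∀ i, coef (Δ i) (c i) = f i := fun i => funext fun x => ((h2 i).co x).symm
  refine ⟨⟨n, Δ, c, h1, fun i => ⟨?_, ?_, fun s hs => small_ker h2 h4 h5 i s hs⟩, h3'⟩,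
    fun l hl => ?_, fun hinf => ?_⟩
  · rw [hco]
    exact (h2 i).pd.posDef
  · rw [hco]
    exact (h2 i).one
  · obtain ⟨P, hP, hx⟩ := lines Δ c l
    refine ⟨P, hP, fun x => ?_⟩
    refine (((hx x).union (fin_line x hl)).union (fin_line (x + (P : ℤ) • l) hl)).subset ?_
    intro j hj
    by_contra hcon
    rw [Set.mem_union, Set.mem_union, not_or, not_or] at hcon
    obtain ⟨⟨a1, a2⟩, a3⟩ := hcon
    simp only [Set.mem_ofPred_eq, not_not] at a1 a2 a3
    have e1 : x + (j + (P : ℤ)) • l = x + (P : ℤ) • l + j • l := by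
      rw [add_smul]
      abel
    refine hj ?_
    rw [h3' _ a2, ← a1, h3' (x + (j + (P : ℤ)) • l) (by rw [e1]; exact a3)]
  · obtain ⟨i₀, hi₀⟩ : ∃ i, (Δ i : Set ((Fin r → ℤ) × G)).Infinite := by
      by_contra hcon
      push Not at hcon
      refine hinf ?_
      have h6 : {x : (Fin r → ℤ) × G | x.1 ≠ 0 ∧ m x ≠ 0} ⊆
          ⋃ i, ⋃ a ∈ (c i).support, {x | x - a ∈ Δ i} := by
        rintro x ⟨hx, hmx⟩
        rw [h3' x hx, neg_ne_zero] at hmx
        obtain ⟨i, -, hi⟩ := Finset.exists_ne_zero_of_sum_ne_zero hmx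
        obtain ⟨a, ha, hxa⟩ := exists_of_coef hi
        exact Set.mem_iUnion.2 ⟨i, Set.mem_iUnion₂.2 ⟨a, ha, hxa⟩⟩
      refine Set.Finite.subset (Set.finite_iUnion fun i => Set.Finite.biUnion
        (Finset.finite_toSet _) fun a _ => ?_) h6
      have h7 : (Δ i : Set ((Fin r → ℤ) × G)).Finite := hcon i
      refine (h7.image fun y => y + a).subset fun x hx => ⟨x - a, hx, sub_add_cancel x a⟩
    obtain ⟨l, hl, hl1⟩ : ∃ l ∈ Δ i₀, l.1 ≠ 0 := by
      by_contra hcon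
      push Not at hcon
      obtain ⟨S, hS, hcard⟩ := hi₀.exists_subset_card_eq (rk V + 1)
      have hinj : Set.InjOn Prod.snd (S : Set ((Fin r → ℤ) × G)) := fun a ha b hb hab =>
        Prod.ext ((hcon a (hS ha)).trans (hcon b (hS hb)).symm) hab
      have h6 := small_ker h2 h4 h5 i₀ (S.image Prod.snd) fun g hg => by
        obtain ⟨a, ha, rfl⟩ := Finset.mem_image.1 hg
        have h7 : ((0, a.2) : (Fin r → ℤ) × G) = a := Prod.ext (hcon a (hS ha)).symm rfl
        rw [h7]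
        exact hS ha
      rw [Finset.card_image_of_injOn hinj, hcard] at h6
      omega
    obtain ⟨J, hJ, hpos⟩ := poles h2 hl
    have hJl : (J • l).1 ≠ 0 := by
      have := smul_ne hl1 (j := (J : ℤ)) (by exact_mod_cast (by omega : J ≠ 0))
      rwa [natCast_zsmul] at this
    refine ⟨J • l, hJl, fun j hj => ?_⟩
    have h6 : (j • J • l).1 ≠ 0 := by
      have := smul_ne hJl (j := (j : ℤ)) (by exact_mod_cast (by omega : j ≠ 0))
      rwa [natCast_zsmul] at this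
    rw [h3 _ h6]
    have := hpos j hj
    omega

/-- **part 4**: the law of the angles -/
theorem law_thm {m : (Fin r → ℤ) → ℤ} (hm : ∀ k, k ≠ 0 → Continues V k (fun _ => 1) (m k)) :
    ∃ (n : ℕ) (Δ : Fin n → AddSubgroup (Fin r → ℤ)) (c : Fin n → (Fin r → ℤ) →₀ ℤ)
      (μ : Fin n → Measure (UnitAddTorus (Fin r))), n ≤ rk V ∧
      (∀ i, IsHaar (Δ i) (μ i)) ∧
      (∀ i, ∀ t ∈ ker (Δ i), (trig (c i) t).im = 0 ∧ 0 ≤ (trig (c i) t).re) ∧
      (∀ k, k ≠ 0 → m k = -∑ i, coef (Δ i) (c i) k) ∧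
      ∀ F : C(UnitAddTorus (Fin r), ℂ), Tendsto (avg V F) (𝓝[>] 0)
        (𝓝 (∑ i, ∫ t, F t * trig (c i) t ∂(μ i))) := by
  classical
  set φ : (Fin r → ℤ) → ℤ := fun k => if k = 0 then (rk V : ℤ) else -m k with hφ
  have hAv : ∀ 𝒰 : Ultrafilter ℝ, (𝒰 : Filter ℝ) ≤ 𝓝[>] 0 → ∀ k, AvC nm 𝒰 (um V k) (φ k) := by
    intro 𝒰 hU k
    by_cases hk : k = 0
    · rw [hk]
      have h1 : φ 0 = rk V := by
        rw [hφ]
        simp
      rw [h1]
      exact (AvC.const (sysK hU) ((rk V : ℤ) : ℂ)).congr (fun v => by rw [um_zero]; push_cast; rfl)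
        rfl
    · have h1 : φ k = -m k := by
        rw [hφ]
        simp only
        rw [if_neg hk]
      rw [h1]
      have h2 := order_mean (V := V) (χ' := fun _ => 1) Hk.one
        (Filter.Eventually.of_forall fun _ => rfl) (hm k hk) hU
      exact h2.congr (fun v => mul_one _) (by push_cast; rfl)
  have hP : Pdi φ := by
    obtain ⟨𝒰, hU⟩ := exists_U
    have h1 : HG (K := K) (fun (_ : Unit) (_ : HeightOneSpectrum (𝓞 K)) => (1 : ℂ)) :=
      ⟨fun _ => Hk.one, fun _ _ => Filter.Eventually.of_forall fun _ => (mul_one 1).symm⟩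
    have h2 := pd_mean (V := V) h1 (sysK hU) (z := fun x => (φ x.1 : ℂ)) fun x =>
      (hAv 𝒰 hU x.1).congr (fun v => (mul_one _).symm) rfl
    exact h2.comp (AddMonoidHom.inl (Fin r → ℤ) Unit)
  have h0 : φ 0 = rk V := by
    rw [hφ]
    simp
  obtain ⟨n, f, Δ, c, h1, h2, h3⟩ := pieces hP h0
  choose μ hμ using fun i => exists_haar (Δ i)
  refine ⟨n, Δ, c, μ, h1, hμ, fun i => trig_nonneg (hμ i) (h2 i).pd (h2 i).co, fun k hk => ?_,
    fun F => ?_⟩
  · have h4 : φ k = -m k := by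
      rw [hφ]
      simp only
      rw [if_neg hk]
    have h5 := h3 k
    rw [h4] at h5
    rw [← neg_eq_iff_eq_neg, h5]
    exact Finset.sum_congr rfl fun i _ => (h2 i).co k
  · rw [tendsto_iff_ultrafilter]
    intro 𝒰 hU
    exact law V (sysK hU) (hAv 𝒰 hU) h2 h3 hμ F

end

end Pool.Agent.Helper49E
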