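import Mathlib

/-!
# Positive definite functions on commutative groups and Hilbert spaces
-/

set_option autoImplicit false

namespace Pool.Agent.Helper49E

open Filter Topology ComplexConjugate

section
variable {Γ : Type} [AddCommGroup Γ]

/-- the function `φ` is positive definite -/
structure PD (φ : Γ → ℂ) : Prop where
  symm : ∀ g, φ (-g) = conj (φ g)
  nonneg : ∀ c : Γ →₀ ℂ, 0 ≤ (c.sum fun a z => c.sum fun b w => conj z * w * φ (b - a)).re

/-- a Hilbert space with vectors `e g` such that `⟨e a, e b⟩ = φ (b - a)` -/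
structure Gns (φ : Γ → ℂ) where
  H : Type
  [i1 : NormedAddCommGroup H]
  [i2 : InnerProductSpace ℂ H]
  [i3 : CompleteSpace H]
  e : Γ → H
  inner_e : ∀ a b, inner ℂ (e a) (e b) = φ (b - a)

attribute [instance] Gns.i1 Gns.i2 Gns.i3

/-- the form on the finitely supported functions -/
@[reducible] noncomputable def core {φ : Γ → ℂ} (h : PD φ) : PreInnerProductSpace.Core ℂ (Γ →₀ ℂ) where
  inner f g := f.sum fun a z => g.sum fun b w => conj z * w * φ (b - a)
  conj_inner_symm f g := by
    rw [Finsupp.sum_comm]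
    simp only [map_finsuppSum]
    congr! 3 with a z
    congr! 3 with b w
    rw [map_mul, map_mul, Complex.conj_conj, ← h.symm, neg_sub]
    ring
  re_inner_nonneg f := h.nonneg f
  add_left f g k := by
    rw [Finsupp.sum_add_index'] <;> simp [← Finsupp.sum_add, add_mul]
  smul_left f g c := by
    rw [Finsupp.sum_smul_index] <;> simp [Finsupp.mul_sum, ← mul_assoc]

theorem gns {φ : Γ → ℂ} (h : PD φ) : Nonempty (Gns φ) := by
  let c := core h
  let _ := InnerProductSpace.Core.toSeminormedAddCommGroup (𝕜 := ℂ) (F := Γ →₀ ℂ)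
  let _ : InnerProductSpace ℂ (Γ →₀ ℂ) := .ofCore _
  refine ⟨⟨UniformSpace.Completion (Γ →₀ ℂ),
    fun g => ((Finsupp.single g (1 : ℂ) : Γ →₀ ℂ) : UniformSpace.Completion (Γ →₀ ℂ)),
    fun a b => ?_⟩⟩
  rw [UniformSpace.Completion.inner_coe]
  change (Finsupp.single a (1 : ℂ)).sum (fun a z => (Finsupp.single b (1 : ℂ)).sum
    fun b w => conj z * w * φ (b - a)) = φ (b - a)
  rw [Finsupp.sum_single_index, Finsupp.sum_single_index]
  · simp
  · simp
  · simp

/-- Gram functions are positive definite -/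
theorem PD.of_gram {H : Type*} [NormedAddCommGroup H] [InnerProductSpace ℂ H] {φ : Γ → ℂ}
    (x : Γ → H) (h : ∀ a b, inner ℂ (x a) (x b) = φ (b - a)) : PD φ where
  symm g := by
    have h1 := h g 0
    have h2 := h 0 g
    rw [zero_sub] at h1
    rw [sub_zero] at h2
    rw [← h1, ← h2, inner_conj_symm]
  nonneg c := by
    have h1 : (c.sum fun a z => c.sum fun b w => conj z * w * φ (b - a)) =
        inner ℂ (c.sum fun a z => z • x a) (c.sum fun a z => z • x a) := by
      rw [Finsupp.sum_inner]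
      refine Finsupp.sum_congr fun a _ => ?_
      rw [inner_smul_left, Finsupp.inner_sum, Finsupp.mul_sum]
      refine Finsupp.sum_congr fun b _ => ?_
      rw [inner_smul_right, h]
      ring
    rw [h1]
    exact inner_self_nonneg (𝕜 := ℂ)

end

section
variable {H : Type*} [NormedAddCommGroup H] [InnerProductSpace ℂ H] [CompleteSpace H]

theorem exists_lim {ι : Type*} (𝒲 : Ultrafilter ι) {f : ι → ℂ} {C : ℝ} (hf : ∀ i, ‖f i‖ ≤ C) :
    ∃ z, Tendsto f 𝒲 (𝓝 z) := by
  have h1 : (𝒲.map f : Filter ℂ) ≤ 𝓟 (Metric.closedBall 0 C) := by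
    rw [le_principal_iff]
    exact Filter.mem_map.2 (Filter.univ_mem' fun i => by simpa using hf i)
  obtain ⟨z, -, hz⟩ := (isCompact_closedBall (0 : ℂ) C).ultrafilter_le_nhds _ h1
  exact ⟨z, hz⟩

/-- weak limits along ultrafilters -/
theorem exists_weak {ι : Type*} (𝒲 : Ultrafilter ι) (x : ι → H) {C : ℝ} (hx : ∀ i, ‖x i‖ ≤ C) :
    ∃ z : H, ∀ y, Tendsto (fun i => inner ℂ y (x i)) 𝒲 (𝓝 (inner ℂ y z)) := by
  have hC : ∀ (y : H) (i : ι), ‖(inner ℂ (x i) y : ℂ)‖ ≤ C * ‖y‖ := fun y i =>
    (norm_inner_le_norm _ _).trans (mul_le_mul_of_nonneg_right (hx i) (norm_nonneg _))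
  choose L hL using fun y : H => exists_lim 𝒲 (hC y)
  let l : H →ₗ[ℂ] ℂ :=
    { toFun := L
      map_add' := fun a b => tendsto_nhds_unique (hL (a + b))
        (((hL a).add (hL b)).congr fun i => (inner_add_right _ _ _).symm)
      map_smul' := fun c a => tendsto_nhds_unique (hL (c • a))
        (((hL a).const_mul c).congr fun i => (inner_smul_right _ _ _).symm) }
  let l' : H →L[ℂ] ℂ := l.mkContinuous C fun y =>
    le_of_tendsto (hL y).norm (Filter.Eventually.of_forall (hC y))
  refine ⟨(InnerProductSpace.toDual ℂ H).symm l', fun y => ?_⟩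
  have h1 := (Complex.continuous_conj.tendsto _).comp (hL y)
  have h2 : conj (L y) = inner ℂ y ((InnerProductSpace.toDual ℂ H).symm l') := by
    rw [← inner_conj_symm, InnerProductSpace.toDual_symm_apply]
    rfl
  rw [← h2]
  exact h1.congr fun i => inner_conj_symm _ _

end

end Pool.Agent.Helper49E
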