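import Pool.Agent.Helper49E.Struct

/-!
# Haar measures of closed subgroups of the torus
-/

set_option autoImplicit false
set_option linter.unusedSectionVars false

namespace Pool.Agent.Helper49E

open MeasureTheory UnitAddTorus ComplexConjugate Filter Topology

section
variable {r : ℕ}

theorem mF_add (k : Fin r → ℤ) (s t : UnitAddTorus (Fin r)) :
    mFourier k (s + t) = mFourier k s * mFourier k t := by
  simp only [mFourier, ContinuousMap.coe_mk, ← Finset.prod_mul_distrib]
  refine Finset.prod_congr rfl fun i _ => ?_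
  rw [fourier_apply, fourier_apply, fourier_apply, Pi.add_apply, smul_add, AddCircle.toCircle_add,
    Circle.coe_mul]

theorem mF_zero (k : Fin r → ℤ) : mFourier k (0 : UnitAddTorus (Fin r)) = 1 := by
  simp [mFourier]

theorem mF_norm (k : Fin r → ℤ) (t : UnitAddTorus (Fin r)) : ‖mFourier k t‖ = 1 := by
  simp [mFourier, fourier_apply]

theorem mF_neg (k : Fin r → ℤ) (t : UnitAddTorus (Fin r)) :
    mFourier k (-t) = conj (mFourier k t) := by
  have h1 := mF_add k t (-t)
  rw [add_neg_cancel, mF_zero] at h1
  have h2 : mFourier k t ≠ 0 := by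
    intro h
    have := mF_norm k t
    rw [h, norm_zero] at this
    exact zero_ne_one this
  have h3 : mFourier k t * conj (mFourier k t) = 1 := by
    rw [Complex.mul_conj, Complex.normSq_eq_norm_sq, mF_norm]
    simp
  exact mul_left_cancel₀ h2 (h1.symm.trans h3.symm)

/-- the subgroup -/
noncomputable def kerG (Δ : AddSubgroup (Fin r → ℤ)) : AddSubgroup (UnitAddTorus (Fin r)) where
  carrier := ker Δ
  zero_mem' := fun d _ => mF_zero d
  add_mem' {a b} ha hb := fun d hd => by rw [mF_add, ha d hd, hb d hd, one_mul]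
  neg_mem' {a} ha := fun d hd => by rw [mF_neg, ha d hd, map_one]

theorem ker_closed (Δ : AddSubgroup (Fin r → ℤ)) : IsClosed (ker Δ) := by
  have : ker Δ = ⋂ d ∈ Δ, {t | mFourier d t = 1} := by
    ext t
    simp [ker]
  rw [this]
  exact isClosed_biInter fun d _ => isClosed_eq (mFourier d).continuous continuous_const

theorem exists_haar (Δ : AddSubgroup (Fin r → ℤ)) :
    ∃ μ : Measure (UnitAddTorus (Fin r)), IsHaar Δ μ := by
  have : CompactSpace (kerG Δ) := isCompact_iff_compactSpace.1 (ker_closed Δ).isCompact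
  let ν : Measure (kerG Δ) := Measure.addHaarMeasure ⊤
  have hν : ν Set.univ = 1 := Measure.addHaarMeasure_self (K₀ := ⊤)
  have hm : Measurable (Subtype.val : kerG Δ → UnitAddTorus (Fin r)) := measurable_subtype_coe
  refine ⟨ν.map Subtype.val, ?_, ?_, ?_⟩
  · rw [Measure.map_apply hm MeasurableSet.univ, Set.preimage_univ, hν]
  · rw [Measure.map_apply hm (ker_closed Δ).measurableSet.compl]
    have : (Subtype.val : kerG Δ → UnitAddTorus (Fin r)) ⁻¹' (ker Δ)ᶜ = ∅ := by
      ext t
      simp only [Set.mem_preimage, Set.mem_compl_iff, Set.mem_empty_iff_false, iff_false, not_not]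
      exact t.2
    rw [this, measure_empty]
  · intro h hh
    have h1 : Measurable (fun t : UnitAddTorus (Fin r) => h + t) :=
      (continuous_const_add h).measurable
    rw [Measure.map_map h1 hm]
    let h' : kerG Δ := ⟨h, hh⟩
    have h2 : (fun t : UnitAddTorus (Fin r) => h + t) ∘ (Subtype.val : kerG Δ → _) =
        Subtype.val ∘ fun t : kerG Δ => h' + t := rfl
    have h3 : Measurable fun t : kerG Δ => h' + t := (continuous_const_add h').measurable
    rw [h2, ← Measure.map_map hm h3, map_add_left_eq_self]

/-- characters of `ℤ^r / Δ` separate points -/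
theorem exists_ker {Δ : AddSubgroup (Fin r → ℤ)} {k : Fin r → ℤ} (hk : k ∉ Δ) :
    ∃ h ∈ ker Δ, mFourier k h ≠ 1 := by
  classical
  have h1 : (QuotientAddGroup.mk k : (Fin r → ℤ) ⧸ Δ) ≠ 0 := by
    rw [Ne, QuotientAddGroup.eq_zero_iff]
    exact hk
  obtain ⟨c, hc⟩ := CharacterModule.exists_character_apply_ne_zero_of_ne_zero h1
  -- rational points of the circle
  let ι : AddCircle (1 : ℚ) →+ UnitAddCircle := QuotientAddGroup.map _ _
    ((Rat.castHom ℝ).toAddMonoidHom) (by
      rw [AddSubgroup.zmultiples_le]
      change ((1 : ℚ) : ℝ) ∈ AddSubgroup.zmultiples (1 : ℝ)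
      rw [Rat.cast_one]
      exact AddSubgroup.mem_zmultiples _)
  have hι : ∀ x, ι x = 0 → x = 0 := by
    intro x
    obtain ⟨q, rfl⟩ := QuotientAddGroup.mk_surjective x
    intro hx
    have h2 : ((q : ℝ) : UnitAddCircle) = 0 := hx
    rw [AddCircle.coe_eq_zero_iff] at h2
    obtain ⟨n, hn⟩ := h2
    have h3 : (n : ℚ) = q := by
      simp only [zsmul_eq_mul, mul_one] at hn
      exact_mod_cast hn
    refine (AddCircle.coe_eq_zero_iff (1 : ℚ)).2 ⟨n, ?_⟩
    simp [h3]
  let C : (Fin r → ℤ) →+ UnitAddCircle := (ι.comp c).comp (QuotientAddGroup.mk' Δ)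
  let t : UnitAddTorus (Fin r) := fun i => C (Pi.single i 1)
  have hC : ∀ d : Fin r → ℤ, ∑ i, d i • t i = C d := by
    intro d
    have h2 : d = ∑ i, d i • (Pi.single i (1 : ℤ) : Fin r → ℤ) := by
      ext j
      simp [Finset.sum_apply, Pi.single_apply]
    conv_rhs => rw [h2]
    rw [map_sum]
    exact Finset.sum_congr rfl fun i _ => (map_zsmul C (d i) _).symm
  have hm : ∀ d : Fin r → ℤ, mFourier d t = AddCircle.toCircle (C d) := by
    intro d
    have h3 : ∀ s : Finset (Fin r), ((AddCircle.toCircle (∑ i ∈ s, d i • t i) : Circle) : ℂ) =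
        ∏ i ∈ s, fourier (d i) (t i) := by
      intro s
      induction s using Finset.induction_on with
      | empty => simp
      | insert a s ha ih =>
        rw [Finset.sum_insert ha, Finset.prod_insert ha, AddCircle.toCircle_add, Circle.coe_mul, ih,
          fourier_apply]
    rw [← hC d, h3 Finset.univ]
    rfl
  refine ⟨t, fun d hd => ?_, ?_⟩
  · rw [hm]
    have h2 : C d = 0 := by
      change ι (c (QuotientAddGroup.mk d)) = 0
      rw [(QuotientAddGroup.eq_zero_iff d).2 hd, map_zero, map_zero]
    rw [h2]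
    simp
  · rw [hm]
    intro h2
    have h3 : AddCircle.toCircle (C k) = AddCircle.toCircle (0 : UnitAddCircle) := by
      rw [AddCircle.toCircle_zero]
      exact Circle.ext h2
    have h4 := AddCircle.injective_toCircle one_ne_zero h3
    exact hc (hι _ h4)

variable {Δ : AddSubgroup (Fin r → ℤ)} {μ : Measure (UnitAddTorus (Fin r))}

theorem IsHaar.prob (h : IsHaar Δ μ) : IsProbabilityMeasure μ := ⟨h.1⟩

theorem IsHaar.ae (h : IsHaar Δ μ) : ∀ᵐ t ∂μ, t ∈ ker Δ := h.2.1

theorem integrable_cont (h : IsHaar Δ μ) {f : UnitAddTorus (Fin r) → ℂ} (hf : Continuous f) :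
    Integrable f μ := by
  have := h.prob
  have := hf.continuousOn.integrableOn_compact (μ := μ) isCompact_univ
  rwa [integrableOn_univ] at this

theorem integrable_contR (h : IsHaar Δ μ) {f : UnitAddTorus (Fin r) → ℝ} (hf : Continuous f) :
    Integrable f μ := by
  have := h.prob
  have := hf.continuousOn.integrableOn_compact (μ := μ) isCompact_univ
  rwa [integrableOn_univ] at this

open Classical in
theorem integral_mF (h : IsHaar Δ μ) (k : Fin r → ℤ) :
    ∫ t, mFourier k t ∂μ = if k ∈ Δ then 1 else 0 := by
  have := h.prob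
  split_ifs with hk
  · rw [integral_congr_ae (g := fun _ => (1 : ℂ)) (h.ae.mono fun t ht => ht k hk)]
    simp
  · obtain ⟨s, hs, hks⟩ := exists_ker hk
    have h1 : ∫ t, mFourier k t ∂μ = mFourier k s * ∫ t, mFourier k t ∂μ := by
      conv_lhs => rw [← h.2.2 s hs]
      rw [integral_map (continuous_const_add s).aemeasurable
        (mFourier k).continuous.aestronglyMeasurable, ← integral_const_mul]
      exact integral_congr_ae (Filter.Eventually.of_forall fun t => mF_add k s t)
    have h2 : (1 - mFourier k s) * ∫ t, mFourier k t ∂μ = 0 := by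
      rw [sub_mul, one_mul, ← h1, sub_self]
    rcases mul_eq_zero.1 h2 with h3 | h3
    · exact absurd (sub_eq_zero.1 h3).symm hks
    · exact h3

theorem trig_cont (c : (Fin r → ℤ) →₀ ℤ) : Continuous (trig c) := by
  unfold trig
  exact continuous_finsetSum _ fun a _ => continuous_const.mul (mFourier (-a)).continuous

theorem integral_trig (h : IsHaar Δ μ) (c : (Fin r → ℤ) →₀ ℤ) (k : Fin r → ℤ) :
    ∫ t, mFourier k t * trig c t ∂μ = (coef Δ c k : ℂ) := by
  classical
  have h1 : ∀ t, mFourier k t * trig c t = ∑ a ∈ c.support, (c a : ℂ) * mFourier (k - a) t := by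
    intro t
    rw [trig, Finset.mul_sum]
    refine Finset.sum_congr rfl fun a _ => ?_
    rw [sub_eq_add_neg, mFourier_add]
    ring
  simp only [h1]
  have h2 : ∀ a ∈ c.support, Integrable (fun t => (c a : ℂ) * mFourier (k - a) t) μ :=
    fun a _ => integrable_cont h (by fun_prop)
  rw [integral_finsetSum _ h2]
  unfold coef
  push_cast
  refine Finset.sum_congr rfl fun a _ => ?_
  rw [integral_const_mul, integral_mF h]
  split_ifs <;> simp

/-- full support -/
theorem full_support (h : IsHaar Δ μ) {u : UnitAddTorus (Fin r) → ℝ} (hu : Continuous u)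
    (h0 : ∀ t, 0 ≤ u t) (hi : ∫ t, u t ∂μ = 0) : ∀ t ∈ ker Δ, u t = 0 := by
  have := h.prob
  have h1 : u =ᵐ[μ] 0 := (integral_eq_zero_iff_of_nonneg h0 (integrable_contR h hu)).1 hi
  intro t ht
  by_contra hne
  set U : Set (UnitAddTorus (Fin r)) := {s | 0 < u s} with hU
  have hUo : IsOpen U := isOpen_lt continuous_const hu
  have hU0 : μ U = 0 := by
    refine measure_mono_null ?_ (ae_iff.1 h1)
    intro s hs h2
    have : u s = 0 := h2
    rw [hU, Set.mem_ofPred_eq, this] at hs
    exact lt_irrefl _ hs
  have htU : t ∈ U := lt_of_le_of_ne (h0 t) (Ne.symm hne)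
  -- translates
  have h2 : ∀ s ∈ ker Δ, μ ((fun x => (s - t) + x) '' U) = 0 := by
    intro s hs
    have h3 : t - s ∈ ker Δ := (kerG Δ).sub_mem ht hs
    have h4 : (fun x => (s - t) + x) '' U = (fun x => (t - s) + x) ⁻¹' U := by
      ext x
      constructor
      · rintro ⟨y, hy, rfl⟩
        rw [Set.mem_preimage]
        have : t - s + (s - t + y) = y := by abel
        rw [this]
        exact hy
      · intro hx
        exact ⟨_, hx, by simp only []; abel⟩
    rw [h4, ← Measure.map_apply (continuous_const_add (t - s)).measurable hUo.measurableSet,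
      h.2.2 _ h3, hU0]
  obtain ⟨T, hcov⟩ := (ker_closed Δ).isCompact.elim_nhds_subcover'
    (fun s _ => (fun x => (s - t) + x) '' U) (fun s hs => by
      have h5 : IsOpen ((fun x => (s - t) + x) '' U) :=
        (Homeomorph.addLeft (s - t)).isOpenMap U hUo
      refine h5.mem_nhds ⟨t, htU, ?_⟩
      simp)
  have h6 : μ (ker Δ) = 0 := by
    refine measure_mono_null hcov ?_
    exact (measure_biUnion_null_iff (Finset.countable_toSet T)).2 fun x _ => h2 x x.2
  have h7 : μ Set.univ ≤ μ (ker Δ) + μ (ker Δ)ᶜ := by
    rw [← Set.union_compl_self (ker Δ)]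
    exact measure_union_le _ _
  rw [h6, h.2.1, h.1] at h7
  simp at h7

/-- integration of continuous functions -/
noncomputable def intL (μ : Measure (UnitAddTorus (Fin r))) [IsProbabilityMeasure μ] :
    C(UnitAddTorus (Fin r), ℂ) →L[ℂ] ℂ :=
  LinearMap.mkContinuous
    { toFun := fun g => ∫ t, g t ∂μ
      map_add' := fun f g => by
        have h1 : ∀ f : C(UnitAddTorus (Fin r), ℂ), Integrable f μ := fun f => by
          have := f.continuous.continuousOn.integrableOn_compact (μ := μ) isCompact_univ
          rwa [integrableOn_univ] at this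
        exact integral_add (h1 f) (h1 g)
      map_smul' := fun c f => integral_const_mul c f } 1 fun g => by
    have h1 := norm_integral_le_of_norm_le_const (μ := μ) (f := g) (C := ‖g‖)
      (Filter.Eventually.of_forall fun t => g.norm_coe_le_norm t)
    simpa using h1

theorem intL_apply (μ : Measure (UnitAddTorus (Fin r))) [IsProbabilityMeasure μ]
    (g : C(UnitAddTorus (Fin r), ℂ)) : intL μ g = ∫ t, g t ∂μ := rfl

/-- the trigonometric polynomial as an element of the algebra -/
noncomputable def trigC (c : (Fin r → ℤ) →₀ ℤ) : C(UnitAddTorus (Fin r), ℂ) := ⟨trig c, trig_cont c⟩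

theorem quad_nonneg (h : IsHaar Δ μ) {f : (Fin r → ℤ) → ℤ} {c : (Fin r → ℤ) →₀ ℤ} (hf : Pdi f)
    (hco : ∀ x, f x = coef Δ c x) (g : C(UnitAddTorus (Fin r), ℂ)) :
    0 ≤ (∫ t, conj (g t) * g t * trig c t ∂μ).re ∧
      (∫ t, conj (g t) * g t * trig c t ∂μ).im = 0 := by
  have := h.prob
  set Q : C(UnitAddTorus (Fin r), ℂ) → ℂ := fun g => intL μ (star g * g * trigC c) with hQ
  have hQc : Continuous Q := by
    rw [hQ]
    fun_prop
  have hval : ∀ g, Q g = ∫ t, conj (g t) * g t * trig c t ∂μ := fun g => rfl
  rw [← hval]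
  have hclosed : IsClosed {g | 0 ≤ (Q g).re ∧ (Q g).im = 0} := by
    refine IsClosed.inter ?_ ?_
    · exact isClosed_le continuous_const (Complex.continuous_re.comp hQc)
    · exact isClosed_eq (Complex.continuous_im.comp hQc) continuous_const
  have hspan : ∀ g ∈ Submodule.span ℂ (Set.range (mFourier (d := Fin r))),
      g ∈ {g | 0 ≤ (Q g).re ∧ (Q g).im = 0} := by
    intro g hg
    obtain ⟨p, rfl⟩ := (Finsupp.mem_span_range_iff_exists_finsupp).1 hg
    have h1 : Q (p.sum fun i a => a • mFourier i) =
        p.sum fun a z => p.sum fun b w => conj z * w * ((f (b - a) : ℤ) : ℂ) := by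
      rw [hval]
      have h2 : ∀ t, conj ((p.sum fun i a => a • mFourier i : C(UnitAddTorus (Fin r), ℂ)) t) *
          (p.sum fun i a => a • mFourier i : C(UnitAddTorus (Fin r), ℂ)) t * trig c t =
          ∑ a ∈ p.support, ∑ b ∈ p.support, (conj (p a) * p b) * (mFourier (b - a) t * trig c t) := by
        intro t
        have h3 : (p.sum fun i a => a • mFourier i : C(UnitAddTorus (Fin r), ℂ)) t =
            ∑ a ∈ p.support, p a * mFourier a t := by
          rw [Finsupp.sum, ContinuousMap.sum_apply]
          rfl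
        rw [h3, map_sum, Finset.sum_mul_sum, Finset.sum_mul]
        refine Finset.sum_congr rfl fun a _ => ?_
        rw [Finset.sum_mul]
        refine Finset.sum_congr rfl fun b _ => ?_
        rw [map_mul, sub_eq_add_neg, mFourier_add, mFourier_neg]
        ring
      simp only [h2]
      have h4 : ∀ a b : Fin r → ℤ, Integrable (fun t => (conj (p a) * p b) *
          (mFourier (b - a) t * trig c t)) μ := fun a b => integrable_cont h (by
        have := trig_cont c
        fun_prop)
      rw [integral_finsetSum _ fun a _ => integrable_finsetSum _ fun b _ => h4 a b]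
      refine Finset.sum_congr rfl fun a _ => ?_
      rw [integral_finsetSum _ fun b _ => h4 a b]
      refine Finset.sum_congr rfl fun b _ => ?_
      rw [integral_const_mul, integral_trig h, ← hco]
    have h5 := PD.nonneg hf p
    refine ⟨?_, ?_⟩
    · rw [h1]
      exact h5
    · rw [h1]
      have h6 : conj (p.sum fun a z => p.sum fun b w => conj z * w * ((f (b - a) : ℤ) : ℂ)) =
          p.sum fun a z => p.sum fun b w => conj z * w * ((f (b - a) : ℤ) : ℂ) := by
        simp only [Finsupp.sum, map_sum, map_mul, Complex.conj_conj, map_intCast]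
        rw [Finset.sum_comm]
        refine Finset.sum_congr rfl fun a _ => Finset.sum_congr rfl fun b _ => ?_
        have h7 : f (b - a) = f (a - b) := by
          rw [← neg_sub, hf.symm]
        rw [h7]
        ring
      exact Complex.conj_eq_iff_im.1 h6
  have h1 : g ∈ (Submodule.span ℂ (Set.range (mFourier (d := Fin r)))).topologicalClosure := by
    rw [span_mFourier_closure_eq_top]
    exact Submodule.mem_top
  exact hclosed.closure_subset_iff.2 hspan h1

/-- the density is nonnegative on the subgroup -/
theorem trig_nonneg (h : IsHaar Δ μ) {f : (Fin r → ℤ) → ℤ} {c : (Fin r → ℤ) →₀ ℤ} (hf : Pdi f)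
    (hco : ∀ x, f x = coef Δ c x) : ∀ t ∈ ker Δ, (trig c t).im = 0 ∧ 0 ≤ (trig c t).re := by
  have := h.prob
  have hF := trig_cont c
  have key : ∀ G : UnitAddTorus (Fin r) → ℝ, Continuous G → (∀ t, 0 ≤ G t) →
      0 ≤ ∫ t, G t * (trig c t).re ∂μ ∧ ∫ t, G t * (trig c t).im ∂μ = 0 := by
    intro G hG h0
    set g : C(UnitAddTorus (Fin r), ℂ) := ⟨fun t => (Real.sqrt (G t) : ℂ), by fun_prop⟩ with hg
    have h1 := quad_nonneg h hf hco g
    have h2 : ∀ t, conj (g t) * g t * trig c t = (G t : ℂ) * trig c t := by
      intro t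
      have h3 : g t = (Real.sqrt (G t) : ℂ) := rfl
      rw [h3, Complex.conj_ofReal, ← Complex.ofReal_mul, Real.mul_self_sqrt (h0 t)]
    simp only [h2] at h1
    have hint : Integrable (fun t => (G t : ℂ) * trig c t) μ := integrable_cont h (by fun_prop)
    have e1 : (∫ t, (G t : ℂ) * trig c t ∂μ).re = ∫ t, G t * (trig c t).re ∂μ := by
      have h3 := (integral_re hint).symm
      simp only [RCLike.re_eq_complex_re, Complex.re_ofReal_mul] at h3
      exact h3
    have e2 : (∫ t, (G t : ℂ) * trig c t ∂μ).im = ∫ t, G t * (trig c t).im ∂μ := by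
      have h3 := (integral_im hint).symm
      simp only [RCLike.im_eq_complex_im, Complex.im_ofReal_mul] at h3
      exact h3
    rw [e1, e2] at h1
    exact h1
  intro t ht
  have hre : Continuous fun t => (trig c t).re := Complex.continuous_re.comp hF
  have him : Continuous fun t => (trig c t).im := Complex.continuous_im.comp hF
  have sq : ∀ x : ℝ, max x 0 * x = max x 0 ^ 2 := fun x => by
    rcases le_total x 0 with hx | hx
    · rw [max_eq_right hx]
      ring
    · rw [max_eq_left hx]
      ring
  refine ⟨?_, ?_⟩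
  · have h1 := (key (fun t => max (trig c t).im 0) (by fun_prop) fun _ => le_max_right _ _).2
    have h2 := (key (fun t => max (-(trig c t).im) 0) (by fun_prop) fun _ => le_max_right _ _).2
    have h3 : ∫ t, max (trig c t).im 0 ^ 2 ∂μ = 0 :=
      (integral_congr_ae (Filter.Eventually.of_forall fun s => (sq _).symm)).trans h1
    have h4 : ∫ t, max (-(trig c t).im) 0 ^ 2 ∂μ = 0 := by
      have h5 : ∫ t, max (-(trig c t).im) 0 ^ 2 ∂μ =
          -∫ t, max (-(trig c t).im) 0 * (trig c t).im ∂μ := by
        rw [← integral_neg]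
        refine integral_congr_ae (Filter.Eventually.of_forall fun s => ?_)
        have := sq (-(trig c s).im)
        simp only []
        rw [← this]
        ring
      rw [h5, h2, neg_zero]
    have h5 := full_support h (by fun_prop) (fun _ => sq_nonneg _) h3 t ht
    have h6 := full_support h (by fun_prop) (fun _ => sq_nonneg _) h4 t ht
    have h7 : max (trig c t).im 0 = 0 := pow_eq_zero_iff two_ne_zero |>.1 h5
    have h8 : max (-(trig c t).im) 0 = 0 := pow_eq_zero_iff two_ne_zero |>.1 h6
    have h9 := le_max_left (trig c t).im 0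
    have h10 := le_max_left (-(trig c t).im) 0
    rw [h7] at h9
    rw [h8] at h10
    linarith
  · have h1 := (key (fun t => max (-(trig c t).re) 0) (by fun_prop) fun _ => le_max_right _ _).1
    have h2 : ∫ t, max (-(trig c t).re) 0 ^ 2 ∂μ = 0 := by
      have h3 : ∫ t, max (-(trig c t).re) 0 ^ 2 ∂μ = -∫ t, max (-(trig c t).re) 0 * (trig c t).re ∂μ := by
        rw [← integral_neg]
        refine integral_congr_ae (Filter.Eventually.of_forall fun s => ?_)
        have := sq (-(trig c s).re)
        simp only []
        rw [← this]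
        ring
      have h4 : 0 ≤ ∫ t, max (-(trig c t).re) 0 ^ 2 ∂μ := integral_nonneg fun _ => sq_nonneg _
      linarith
    have h5 := full_support h (by fun_prop) (fun _ => sq_nonneg _) h2 t ht
    have h7 : max (-(trig c t).re) 0 = 0 := pow_eq_zero_iff two_ne_zero |>.1 h5
    have h9 := le_max_left (-(trig c t).re) 0
    rw [h7] at h9
    linarith

end

end Pool.Agent.Helper49E
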