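import Pool.Agent.Helper49E.Mean
import Pool.Agent.Helper49E.Torus

/-!
# The law of the angles
-/

set_option autoImplicit false
set_option linter.unusedSectionVars false

namespace Pool.Agent.Helper49E

open NumberField Complex Filter Topology ComplexConjugate IsDedekindDomain MeasureTheory
open Pool.Agent.H341R2 Pool.Agent.W540.BE Pool.Agent.HS37.HK UnitAddTorus

theorem PD.comp {Γ Γ' : Type} [AddCommGroup Γ] [AddCommGroup Γ'] {φ : Γ' → ℂ} (h : PD φ)
    (ι : Γ →+ Γ') : PD fun x => φ (ι x) := by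
  obtain ⟨G⟩ := gns h
  refine PD.of_gram (fun x => G.e (ι x)) fun a b => ?_
  rw [G.inner_e, map_sub]

theorem lam_log : Tendsto (fun ε : ℝ => lam ε / Real.log (1 / ε)) (𝓝[>] 0) (𝓝 1) := by
  obtain ⟨C, hC⟩ := lam_bounded
  have hlog : Tendsto (fun ε : ℝ => Real.log (1 / ε)) (𝓝[>] 0) atTop := by
    have h1 := tendsto_neg_atBot_atTop.comp Real.tendsto_log_nhdsGT_zero
    refine h1.congr fun ε => ?_
    rw [one_div, Real.log_inv]
    rfl
  have hlim : Tendsto (fun ε : ℝ => C / Real.log (1 / ε)) (𝓝[>] 0) (𝓝 0) :=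
    tendsto_const_nhds.div_atTop hlog
  rw [tendsto_iff_norm_sub_tendsto_zero]
  refine squeeze_zero_norm' ?_ hlim
  filter_upwards [hC, hlog.eventually_gt_atTop 0] with ε h1 h2
  have e0 : Real.log (1 / ε) = -Real.log ε := by rw [one_div, Real.log_inv]
  rw [norm_norm, Real.norm_eq_abs]
  have e1 : lam ε / Real.log (1 / ε) - 1 = (lam ε + Real.log ε) / Real.log (1 / ε) := by
    field_simp
    rw [e0]
    ring
  rw [e1, abs_div, abs_of_pos h2]
  exact div_le_div_of_nonneg_right h1 h2.le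

section
variable {K : Type} [Field K] [NumberField K] {r : ℕ} (V : Fin r → Motive K)

/-- the sum over the eigenvalues -/
noncomputable def sF (F : UnitAddTorus (Fin r) → ℂ) (v : HeightOneSpectrum (𝓞 K)) : ℂ :=
  ∑ j : ∀ i, Fin (V i).rank, F (angle V v j)

theorem sF_le {F : UnitAddTorus (Fin r) → ℂ} {C : ℝ} (h : ∀ t, ‖F t‖ ≤ C)
    (v : HeightOneSpectrum (𝓞 K)) : ‖sF V F v‖ ≤ rk V * C := by
  unfold sF
  refine (norm_sum_le _ _).trans ((Finset.sum_le_sum fun j _ => h _).trans ?_)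
  rw [Finset.sum_const, Finset.card_univ, card_idx, nsmul_eq_mul]

variable {V} {𝒰 : Ultrafilter ℝ}

theorem avg_tendsto {F : UnitAddTorus (Fin r) → ℂ} (hF : BdC (sF V F))
    (hS : Sys (nm (K := K)) 𝒰) {z : ℂ} (h : AvC nm 𝒰 (sF V F) z) :
    Tendsto (avg V F) 𝒰 (𝓝 z) := by
  obtain ⟨B, hB⟩ := id hF
  have h1 : Tendsto (fun ε : ℝ => (((EP nm ε fun v => (sF V F v).re) / lam ε : ℝ) : ℂ) +
      (((EP nm ε fun v => (sF V F v).im) / lam ε : ℝ) : ℂ) * I) 𝒰 (𝓝 (z.re + z.im * I)) :=
    ((Complex.continuous_ofReal.tendsto _).comp h.1).add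
      (((Complex.continuous_ofReal.tendsto _).comp h.2).mul_const I)
  have h2 := ((Complex.continuous_ofReal.tendsto _).comp (lam_log.mono_left hS.le))
  have h3 := h1.mul h2
  rw [Complex.re_add_im, Complex.ofReal_one, mul_one] at h3
  refine h3.congr' ?_
  filter_upwards [hS.pos] with ε hε
  have h4 : (∑' v : HeightOneSpectrum (𝓞 K), (∑ j : ∀ i, Fin (V i).rank, F (angle V v j)) *
      (((Ideal.absNorm v.asIdeal : ℝ) ^ (-(1 + ε)) : ℝ) : ℂ)) =
      ((EP nm ε fun v => (sF V F v).re : ℝ) : ℂ) + ((EP nm ε fun v => (sF V F v).im : ℝ) : ℂ) * I := by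
    have h5 : Summable fun v : HeightOneSpectrum (𝓞 K) => sF V F v *
        (((nm v : ℝ) ^ (-(1 + ε)) : ℝ) : ℂ) := by
      refine Summable.of_norm_bounded ((nsys.summable (-(1 + ε)) (by linarith [hε.1])).mul_left B)
        fun v => ?_
      rw [norm_mul, Complex.norm_real, Real.norm_of_nonneg (wP_nonneg ε v)]
      exact mul_le_mul_of_nonneg_right (hB v) (wP_nonneg ε v)
    refine Complex.ext ?_ ?_
    · have h6 := Complex.re_tsum h5
      simp only [Complex.re_mul_ofReal] at h6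
      simp only [Complex.add_re, Complex.ofReal_re, Complex.mul_re, Complex.I_re, mul_zero,
        Complex.ofReal_im, Complex.I_im, zero_mul, sub_self, add_zero]
      exact h6
    · have h6 := Complex.im_tsum h5
      simp only [Complex.im_mul_ofReal] at h6
      simp only [Complex.add_im, Complex.ofReal_im, Complex.mul_im, Complex.I_im, mul_one,
        Complex.ofReal_re, Complex.I_re, mul_zero, add_zero, zero_add]
      exact h6
  unfold avg
  rw [h4]
  have h7 : (lam ε : ℂ) ≠ 0 := by exact_mod_cast hε.2.ne'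
  simp only [Function.comp_apply]
  push_cast
  field_simp

/-- the mean value as a linear functional -/
noncomputable def mnL (V : Fin r → Motive K) (hS : Sys (nm (K := K)) 𝒰) :
    C(UnitAddTorus (Fin r), ℂ) →L[ℂ] ℂ :=
  have hb : ∀ F : C(UnitAddTorus (Fin r), ℂ), BdC (sF V F) := fun F =>
    ⟨_, sF_le V fun t => F.norm_coe_le_norm t⟩
  have hex : ∀ F : C(UnitAddTorus (Fin r), ℂ), ∃ z, AvC nm 𝒰 (sF V F) z := fun F =>
    hS.existsC (hb F)
  LinearMap.mkContinuous
    { toFun := fun F => (hex F).choose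
      map_add' := fun F G => by
        refine AvC.unique (hex (F + G)).choose_spec (AvC.congr (AvC.add hS (hb F) (hb G)
          (hex F).choose_spec (hex G).choose_spec) (fun v => ?_) rfl)
        unfold sF
        rw [← Finset.sum_add_distrib]
        rfl
      map_smul' := fun c F => by
        refine AvC.unique (hex (c • F)).choose_spec (AvC.congr (AvC.const_mul hS (hb F)
          (hex F).choose_spec c) (fun v => ?_) rfl)
        unfold sF
        rw [Finset.mul_sum]
        rfl } (2 * rk V) fun F => by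
    have h1 := (hex F).choose_spec
    have h2 : ∀ v, ‖sF V F v‖ ≤ rk V * ‖F‖ := sF_le V fun t => F.norm_coe_le_norm t
    have key : ∀ (f : HeightOneSpectrum (𝓞 K) → ℝ) (y : ℝ), (∀ v, |f v| ≤ rk V * ‖F‖) →
        Av nm 𝒰 f y → |y| ≤ rk V * ‖F‖ := by
      intro f y hf hy
      have hbd : Bd f := ⟨_, hf⟩
      rw [abs_le]
      constructor
      · have := Av.mono hS (hbd.const_mul (-1)) (Bd.const _) (hy.const_mul (-1))
          (Av.const hS (rk V * ‖F‖)) fun v => by
            have := (abs_le.1 (hf v)).1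
            linarith
        linarith
      · exact Av.mono hS hbd (Bd.const _) hy (Av.const hS _) fun v => (abs_le.1 (hf v)).2
    have h3 := key _ _ (fun v => (Complex.abs_re_le_norm _).trans (h2 v)) h1.1
    have h4 := key _ _ (fun v => (Complex.abs_im_le_norm _).trans (h2 v)) h1.2
    have h5 := Complex.norm_le_abs_re_add_abs_im (hex F).choose
    refine h5.trans ?_
    linarith

theorem mnL_spec (V : Fin r → Motive K) (hS : Sys (nm (K := K)) 𝒰)
    (F : C(UnitAddTorus (Fin r), ℂ)) : AvC nm 𝒰 (sF V F) (mnL V hS F) := by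
  have hb : ∀ F : C(UnitAddTorus (Fin r), ℂ), BdC (sF V F) := fun F =>
    ⟨_, sF_le V fun t => F.norm_coe_le_norm t⟩
  exact (hS.existsC (hb F)).choose_spec

/-- the law -/
theorem law (V : Fin r → Motive K) (hS : Sys (nm (K := K)) 𝒰) {φ : (Fin r → ℤ) → ℤ}
    (hφ : ∀ k, AvC nm 𝒰 (um V k) (φ k)) {n : ℕ} {f : Fin n → (Fin r → ℤ) → ℤ}
    {Δ : Fin n → AddSubgroup (Fin r → ℤ)} {c : Fin n → (Fin r → ℤ) →₀ ℤ}
    (hp : ∀ i, IsPiece (f i) (Δ i) (c i)) (hsum : ∀ x, φ x = ∑ i, f i x)
    {μ : Fin n → Measure (UnitAddTorus (Fin r))} (hμ : ∀ i, IsHaar (Δ i) (μ i))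
    (F : C(UnitAddTorus (Fin r), ℂ)) :
    Tendsto (avg V F) 𝒰 (𝓝 (∑ i, ∫ t, F t * trig (c i) t ∂(μ i))) := by
  have hpr : ∀ i, IsProbabilityMeasure (μ i) := fun i => (hμ i).prob
  let Λ : C(UnitAddTorus (Fin r), ℂ) →L[ℂ] ℂ :=
    ∑ i, (intL (μ i)).comp ((ContinuousLinearMap.mul ℂ C(UnitAddTorus (Fin r), ℂ)).flip (trigC (c i)))
  have hΛ : ∀ F : C(UnitAddTorus (Fin r), ℂ), Λ F = ∑ i, ∫ t, F t * trig (c i) t ∂(μ i) := by
    intro F
    simp only [Λ, ContinuousLinearMap.sum_apply]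
    rfl
  have heq : mnL V hS = Λ := by
    refine ContinuousLinearMap.ext_on (s := Set.range (mFourier (d := Fin r))) ?_ ?_
    · rw [dense_iff_closure_eq, ← Submodule.topologicalClosure_coe, span_mFourier_closure_eq_top]
      rfl
    · rintro _ ⟨k, rfl⟩
      rw [hΛ]
      refine AvC.unique (mnL_spec V hS (mFourier k)) (AvC.congr (hφ k) (fun v => rfl) ?_)
      rw [hsum k]
      push_cast
      exact Finset.sum_congr rfl fun i _ => by rw [integral_trig (hμ i), (hp i).co]
  rw [← hΛ, ← heq]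
  exact avg_tendsto ⟨_, sF_le V fun t => F.norm_coe_le_norm t⟩ hS (mnL_spec V hS F)

end

end Pool.Agent.Helper49E
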