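import Pool.Agent.Helper49E.Dec

/-!
# One-sided integral coefficients of stationary sequences are eventually periodic
-/

set_option autoImplicit false
set_option linter.unusedSectionVars false

namespace Pool.Agent.Helper49E

open Filter Topology

/-- a bounded integer sequence that is determined by blocks is eventually periodic -/
theorem comb {b : ℕ → ℤ} {C : ℤ} (hb : ∀ n, |b n| ≤ C) {J T : ℕ}
    (h : ∀ N M, T ≤ N → T ≤ M → (∀ j, j < J → b (N + j) = b (M + j)) → b (N + J) = b (M + J)) :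
    ∃ P, 1 ≤ P ∧ ∃ n₀, ∀ n, n₀ ≤ n → b (n + P) = b n := by
  classical
  -- pigeonhole
  obtain ⟨N, M, hNM, hT, hblock⟩ : ∃ N M, N < M ∧ T ≤ N ∧ ∀ j, j < J → b (N + j) = b (M + j) := by
    set F : ℕ → (Fin J → Set.Icc (-C) C) := fun n j =>
      ⟨b (T + n + j), abs_le.1 (hb _)⟩ with hF
    obtain ⟨n, m, hne, hnm⟩ := Finite.exists_ne_map_eq_of_infinite F
    rcases lt_or_gt_of_ne hne with hlt | hlt
    · refine ⟨T + n, T + m, by omega, by omega, fun j hj => ?_⟩
      have := congrFun hnm ⟨j, hj⟩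
      exact congrArg Subtype.val this
    · refine ⟨T + m, T + n, by omega, by omega, fun j hj => ?_⟩
      have := congrFun hnm ⟨j, hj⟩
      exact (congrArg Subtype.val this).symm
  have hall : ∀ k, b (N + k) = b (M + k) := by
    intro k
    induction k using Nat.strong_induction_on with
    | _ k ih =>
      by_cases hk : k < J
      · exact hblock k hk
      · have h1 := h (N + (k - J)) (M + (k - J)) (by omega) (by omega) fun j hj => by
          have := ih (k - J + j) (by omega)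
          rw [← add_assoc, ← add_assoc] at this
          exact this
        have e1 : N + (k - J) + J = N + k := by omega
        have e2 : M + (k - J) + J = M + k := by omega
        rw [e1, e2] at h1
        exact h1
  refine ⟨M - N, by omega, N, fun n hn => ?_⟩
  have h1 := hall (n - N)
  have e1 : N + (n - N) = n := by omega
  have e2 : M + (n - N) = n + (M - N) := by omega
  rw [e1, e2] at h1
  exact h1.symm

section
variable {E : Type*} [NormedAddCommGroup E] [InnerProductSpace ℝ E]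

/-- shifted combinations -/
noncomputable def cmb (y : ℤ → E) (c : ℤ →₀ ℝ) (n : ℤ) : E := c.sum fun j a => a • y (j + n)

variable {y : ℤ → E}

theorem cmb_add (c c' : ℤ →₀ ℝ) (n : ℤ) : cmb y (c + c') n = cmb y c n + cmb y c' n := by
  unfold cmb
  rw [Finsupp.sum_add_index']
  · simp
  · intro a s t
    rw [add_smul]

theorem cmb_smul (t : ℝ) (c : ℤ →₀ ℝ) (n : ℤ) : cmb y (t • c) n = t • cmb y c n := by
  unfold cmb
  rw [Finsupp.sum_smul_index (by simp), Finsupp.smul_sum]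
  simp only [mul_smul]

/-- the shift of the coefficients -/
noncomputable def sh (k : ℤ) (c : ℤ →₀ ℝ) : ℤ →₀ ℝ := c.mapDomain fun j => j + k

theorem sh_apply (k : ℤ) (c : ℤ →₀ ℝ) (j : ℤ) : sh k c j = c (j - k) := by
  unfold sh
  have h1 : j = (j - k) + k := by omega
  conv_lhs => rw [h1]
  exact Finsupp.mapDomain_apply (add_left_injective k) c (j - k)

theorem cmb_sh (k : ℤ) (c : ℤ →₀ ℝ) (n : ℤ) : cmb y (sh k c) n = cmb y c (n + k) := by
  unfold cmb sh
  rw [Finsupp.sum_mapDomain_index]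
  · refine Finsupp.sum_congr fun j _ => ?_
    congr 2
    ring
  · simp
  · intro a s t
    rw [add_smul]

theorem cmb_inner (hst : ∀ i j k, inner ℝ (y (i + k)) (y (j + k)) = inner ℝ (y i) (y j))
    (c c' : ℤ →₀ ℝ) (m n k : ℤ) :
    inner ℝ (cmb y c (m + k)) (cmb y c' (n + k)) = inner ℝ (cmb y c m) (cmb y c' n) := by
  unfold cmb
  rw [Finsupp.sum_inner, Finsupp.sum_inner]
  refine Finsupp.sum_congr fun a _ => ?_
  rw [inner_smul_left, inner_smul_left, Finsupp.inner_sum, Finsupp.inner_sum]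
  congr 1
  refine Finsupp.sum_congr fun b _ => ?_
  rw [inner_smul_right, inner_smul_right, ← add_assoc, ← add_assoc, hst]

theorem cmb_norm (hst : ∀ i j k, inner ℝ (y (i + k)) (y (j + k)) = inner ℝ (y i) (y j))
    (c : ℤ →₀ ℝ) (n : ℤ) : ‖cmb y c n‖ = ‖cmb y c 0‖ := by
  have h1 := cmb_inner hst c c 0 0 n
  rw [real_inner_self_eq_norm_sq, real_inner_self_eq_norm_sq, zero_add] at h1
  exact (pow_left_inj₀ (norm_nonneg _) (norm_nonneg _) two_ne_zero).1 h1

/-- an almost minimal combination is almost orthogonal to its shifts -/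
theorem exists_min (hst : ∀ i j k, inner ℝ (y (i + k)) (y (j + k)) = inner ℝ (y i) (y j))
    {η : ℝ} (hη : 0 < η) : ∃ c : ℤ →₀ ℝ, c 0 = 1 ∧ (∀ j, j < 0 → c j = 0) ∧
      ‖cmb y c 0‖ ^ 2 ≤ ‖y 0‖ ^ 2 ∧ ∀ m n, m ≠ n →
        |inner ℝ (cmb y c m) (cmb y c n)| ≤ Real.sqrt η * ‖cmb y c 0‖ := by
  classical
  set A : Set ℝ := {a | ∃ c : ℤ →₀ ℝ, c 0 = 1 ∧ (∀ j, j < 0 → c j = 0) ∧ a = ‖cmb y c 0‖ ^ 2}
    with hA
  have hbdd : BddBelow A := ⟨0, by
    rintro _ ⟨c, -, -, rfl⟩
    exact sq_nonneg _⟩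
  have h1 : ‖y 0‖ ^ 2 ∈ A := by
    refine ⟨Finsupp.single 0 1, by simp, fun j hj => ?_, ?_⟩
    · rw [Finsupp.single_apply, if_neg (by omega)]
    · unfold cmb
      rw [Finsupp.sum_single_index (by simp)]
      simp
  have hle : sInf A ≤ ‖y 0‖ ^ 2 := csInf_le hbdd h1
  obtain ⟨c, hc0, hc1, hc2, hc3⟩ : ∃ c : ℤ →₀ ℝ, c 0 = 1 ∧ (∀ j, j < 0 → c j = 0) ∧
      ‖cmb y c 0‖ ^ 2 ≤ ‖y 0‖ ^ 2 ∧ ‖cmb y c 0‖ ^ 2 ≤ sInf A + η := by
    by_cases hcase : ‖y 0‖ ^ 2 ≤ sInf A + η
    · obtain ⟨c, h2, h3, h4⟩ := h1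
      exact ⟨c, h2, h3, h4.symm.le, h4.symm.le.trans hcase⟩
    · push Not at hcase
      obtain ⟨a, ⟨c, h2, h3, rfl⟩, h5⟩ := exists_lt_of_csInf_lt ⟨_, h1⟩
        (show sInf A < sInf A + η by linarith)
      exact ⟨c, h2, h3, (h5.trans hcase).le, h5.le⟩
  refine ⟨c, hc0, hc1, hc2, ?_⟩
  have key : ∀ k : ℤ, 1 ≤ k → |inner ℝ (cmb y c 0) (cmb y c k)| ≤ Real.sqrt η * ‖cmb y c 0‖ := by
    intro k hk
    have h2 : ∀ t : ℝ, sInf A ≤ ‖cmb y c 0 + t • cmb y c k‖ ^ 2 := by
      intro t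
      refine csInf_le hbdd ⟨c + t • sh k c, ?_, fun j hj => ?_, ?_⟩
      · rw [Finsupp.add_apply, Finsupp.smul_apply, sh_apply, hc0, hc1 _ (by omega), smul_zero,
          add_zero]
      · rw [Finsupp.add_apply, Finsupp.smul_apply, sh_apply, hc1 _ hj, hc1 _ (by omega), smul_zero,
          add_zero]
      · rw [cmb_add, cmb_smul, cmb_sh, zero_add]
    have h3 : ∀ t : ℝ, 0 ≤ ‖cmb y c 0‖ ^ 2 * (t * t) + (2 * inner ℝ (cmb y c 0) (cmb y c k)) * t +
        η := by
      intro t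
      have h4 := h2 t
      rw [norm_add_sq_real, inner_smul_right, norm_smul, mul_pow, Real.norm_eq_abs, sq_abs,
        cmb_norm hst c k] at h4
      nlinarith
    have h4 := discrim_le_zero h3
    unfold discrim at h4
    have h5 : (inner ℝ (cmb y c 0) (cmb y c k)) ^ 2 ≤ (Real.sqrt η * ‖cmb y c 0‖) ^ 2 := by
      rw [mul_pow, Real.sq_sqrt hη.le]
      nlinarith
    exact abs_le_of_sq_le_sq h5 (by positivity)
  intro m n hmn
  rcases lt_or_gt_of_ne hmn with h2 | h2
  · have h3 := cmb_inner hst c c 0 (n - m) m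
    rw [zero_add, sub_add_cancel] at h3
    rw [h3]
    exact key _ (by omega)
  · have h3 := cmb_inner hst c c 0 (m - n) n
    rw [zero_add, sub_add_cancel] at h3
    rw [real_inner_comm, h3]
    exact key _ (by omega)

/-- almost orthogonal vectors cannot all have large inner product with a fixed vector -/
theorem near_bessel {ι : Type*} (w : ι → E) (X : E) {W τ : ℝ} (hW : ∀ i, ‖w i‖ ^ 2 ≤ W)
    (hτ : ∀ i j, i ≠ j → |inner ℝ (w i) (w j)| ≤ τ) (hτ' : ‖X‖ ^ 2 * τ ≤ 1 / 8) (h0 : 0 ≤ τ)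
    (hW0 : 0 ≤ W)
    (S : Finset ι) (hS : ∀ i ∈ S, 1 / 2 ≤ |inner ℝ X (w i)|) :
    (S.card : ℝ) ≤ 8 * ‖X‖ ^ 2 * W := by
  classical
  set θ : ι → ℝ := fun i => if 0 ≤ inner ℝ X (w i) then 1 else -1 with hθ
  have hθ1 : ∀ i, θ i * inner ℝ X (w i) = |inner ℝ X (w i)| := by
    intro i
    rw [hθ]
    simp only
    split_ifs with h
    · rw [one_mul, abs_of_nonneg h]
    · rw [neg_one_mul, abs_of_neg (not_le.1 h)]
  have hθ2 : ∀ i, |θ i| = 1 := by
    intro i
    rw [hθ]
    simp only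
    split_ifs <;> simp
  set Z : E := ∑ i ∈ S, θ i • w i with hZ
  have h1 : (S.card : ℝ) / 2 ≤ inner ℝ X Z := by
    rw [hZ, inner_sum]
    have h2 : ∑ i ∈ S, (1 / 2 : ℝ) ≤ ∑ i ∈ S, inner ℝ X (θ i • w i) :=
      Finset.sum_le_sum fun i hi => by
        rw [inner_smul_right, hθ1]
        exact hS i hi
    rw [Finset.sum_const, nsmul_eq_mul] at h2
    linarith
  have h2 : ‖Z‖ ^ 2 ≤ S.card * W + (S.card : ℝ) ^ 2 * τ := by
    rw [← real_inner_self_eq_norm_sq, hZ, sum_inner]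
    have h3 : ∀ i ∈ S, inner ℝ (θ i • w i) (∑ j ∈ S, θ j • w j) ≤ W + S.card * τ := by
      intro i hi
      rw [inner_sum, ← Finset.add_sum_erase _ _ hi]
      refine add_le_add ?_ ?_
      · rw [inner_smul_left, inner_smul_right, real_inner_self_eq_norm_sq]
        have h4 : θ i * θ i = 1 := by
          have := hθ2 i
          rw [← abs_mul_abs_self, this, one_mul]
        simp only [conj_trivial]
        rw [← mul_assoc, h4, one_mul]
        exact hW i
      · have h4 : ∀ j ∈ S.erase i, inner ℝ (θ i • w i) (θ j • w j) ≤ τ := by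
          intro j hj
          have h5 := hτ i j (Finset.ne_of_mem_erase hj).symm
          rw [inner_smul_left, inner_smul_right]
          simp only [conj_trivial]
          refine (le_abs_self _).trans ?_
          rw [abs_mul, abs_mul, hθ2, hθ2, one_mul, one_mul]
          exact h5
        refine (Finset.sum_le_sum h4).trans ?_
        rw [Finset.sum_const, nsmul_eq_mul]
        refine mul_le_mul_of_nonneg_right ?_ h0
        exact_mod_cast Finset.card_le_card (Finset.erase_subset i S)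
    refine (Finset.sum_le_sum h3).trans (le_of_eq ?_)
    rw [Finset.sum_const, nsmul_eq_mul]
    ring
  have h3 : inner ℝ X Z ≤ ‖X‖ * ‖Z‖ := real_inner_le_norm X Z
  have h4 : ((S.card : ℝ) / 2) ^ 2 ≤ ‖X‖ ^ 2 * ‖Z‖ ^ 2 := by
    rw [← mul_pow]
    exact pow_le_pow_left₀ (by positivity) (h1.trans h3) 2
  have h5 : ((S.card : ℝ) / 2) ^ 2 ≤ ‖X‖ ^ 2 * (S.card * W) + (S.card : ℝ) ^ 2 * (1 / 8) := by
    refine h4.trans ((mul_le_mul_of_nonneg_left h2 (sq_nonneg _)).trans ?_)
    have h6 : ‖X‖ ^ 2 * ((S.card : ℝ) ^ 2 * τ) ≤ (S.card : ℝ) ^ 2 * (1 / 8) := by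
      have := mul_le_mul_of_nonneg_left hτ' (sq_nonneg (S.card : ℝ))
      linarith
    linarith
  rcases (Nat.cast_nonneg S.card : (0 : ℝ) ≤ S.card).eq_or_lt with h6 | h6
  · rw [← h6]
    positivity
  · have h7 : (S.card : ℝ) * S.card ≤ S.card * (8 * ‖X‖ ^ 2 * W) := by nlinarith
    exact le_of_mul_le_mul_left h7 h6

/-- **one-sided integral coefficients**: eventually periodic -/
theorem one_sided (hst : ∀ i j k, inner ℝ (y (i + k)) (y (j + k)) = inner ℝ (y i) (y j)) (X : E)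
    {b : ℕ → ℤ} {n₁ : ℕ} (hb : ∀ n : ℕ, n₁ ≤ n → inner ℝ X (y (-(n : ℤ))) = b n) :
    ∃ P, 1 ≤ P ∧ ∃ n₀, ∀ n, n₀ ≤ n → b (n + P) = b n := by
  classical
  by_contra hcon
  -- the constants
  set Y : ℝ := ‖y 0‖ ^ 2 with hY
  set τ : ℝ := 1 / (8 * (‖X‖ ^ 2 + 1)) with hτ
  have hX : 0 < 8 * (‖X‖ ^ 2 + 1) := by positivity
  have hτ0 : 0 < τ := by positivity
  have hτ1 : ‖X‖ ^ 2 * τ ≤ 1 / 8 := by
    rw [hτ]
    have : ‖X‖ ^ 2 * (1 / (8 * (‖X‖ ^ 2 + 1))) = (‖X‖ ^ 2 / (‖X‖ ^ 2 + 1)) * (1 / 8) := by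
      field_simp
    rw [this]
    have h1 : ‖X‖ ^ 2 / (‖X‖ ^ 2 + 1) ≤ 1 := by
      rw [div_le_one (by positivity)]
      linarith
    linarith
  set η : ℝ := (τ / (‖y 0‖ + 1)) ^ 2 with hη
  have hη0 : 0 < η := by positivity
  obtain ⟨c, hc0, hc1, hc2, hc3⟩ := exists_min hst hη0
  have hsq : Real.sqrt η = τ / (‖y 0‖ + 1) := Real.sqrt_sq (by positivity)
  have hcn : ‖cmb y c 0‖ ≤ ‖y 0‖ := by
    by_contra h
    push Not at h
    have := pow_lt_pow_left₀ h (norm_nonneg _) two_ne_zero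
    linarith
  have hoff : ∀ m n : ℤ, m ≠ n → |inner ℝ (cmb y c m) (cmb y c n)| ≤ τ := by
    intro m n hmn
    refine (hc3 m n hmn).trans ?_
    rw [hsq, div_mul_eq_mul_div, div_le_iff₀ (by positivity)]
    refine mul_le_mul_of_nonneg_left ?_ hτ0.le
    linarith [hcn]
  -- the set of large coefficients is finite
  set L : Set ℕ := {n | 1 / 2 ≤ |inner ℝ X (cmb y c (-(n : ℤ)))|} with hL
  have hLfin : L.Finite := by
    by_contra hinf
    have hinf : L.Infinite := hinf
    obtain ⟨S, hS, hcard⟩ := hinf.exists_subset_card_eq (⌈8 * ‖X‖ ^ 2 * Y⌉₊ + 1)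
    have h1 := near_bessel (fun n : ℕ => cmb y c (-(n : ℤ))) X (W := Y) (τ := τ)
      (fun n => by rw [cmb_norm hst]; exact hc2) (fun m n hmn => hoff _ _ (by omega)) hτ1 hτ0.le (sq_nonneg _) S
      fun n hn => hS hn
    rw [hcard] at h1
    have h2 := Nat.le_ceil (8 * ‖X‖ ^ 2 * Y)
    push_cast at h1
    linarith
  obtain ⟨T₀, hT₀⟩ := hLfin.bddAbove
  -- the length of the combination
  obtain ⟨J, hJ⟩ : ∃ J : ℕ, ∀ j ∈ c.support, j ≤ J := by
    obtain ⟨J, hJ⟩ := c.support.bddAbove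
    exact ⟨J.toNat, fun j hj => (hJ hj).trans (Int.self_le_toNat J)⟩
  -- the sequence from n₁ on
  set T : ℕ := T₀ + n₁ + 1 with hT
  have hcoef : ∀ n : ℕ, n₁ + J ≤ n → inner ℝ X (cmb y c (-(n : ℤ))) =
      (b n : ℝ) + ∑ j ∈ Finset.range J, c ((j : ℤ) + 1) * b (n - (j + 1)) := by
    intro n hn
    have h1 : inner ℝ X (cmb y c (-(n : ℤ))) = ∑ j ∈ c.support, c j * inner ℝ X (y (j + -n)) := by
      unfold cmb
      rw [Finsupp.inner_sum]
      exact Finset.sum_congr rfl fun j _ => inner_smul_right _ _ _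
    have h2 : c.support ⊆ (Finset.range (J + 1)).image (fun j : ℕ => (j : ℤ)) := by
      intro j hj
      have h3 : 0 ≤ j := by
        by_contra h4
        rw [Finsupp.mem_support_iff] at hj
        exact hj (hc1 j (by omega))
      rw [Finset.mem_image]
      exact ⟨j.toNat, Finset.mem_range.2 (by have := hJ j hj; omega), Int.toNat_of_nonneg h3⟩
    rw [h1, Finset.sum_subset h2 (fun j _ hj => by
      rw [Finsupp.notMem_support_iff.1 hj, zero_mul]), Finset.sum_image (by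
      intro a _ b _ hab
      have hab' : (a : ℤ) = b := hab
      exact_mod_cast hab'), Finset.sum_range_succ', Nat.cast_zero, hc0, one_mul, zero_add, add_comm]
    congr 1
    · exact hb n (by omega)
    · refine Finset.sum_congr rfl fun j hj => ?_
      have h3 : j < J := Finset.mem_range.1 hj
      have h4 : (((j + 1 : ℕ) : ℤ) + -(n : ℤ)) = -((n - (j + 1) : ℕ) : ℤ) := by omega
      rw [h4, hb _ (by omega)]
      push_cast
      rfl
  -- bounded
  have hbd : ∀ n, n₁ ≤ n → |b n| ≤ ⌈‖X‖ * ‖y 0‖⌉ := by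
    intro n hn
    have h1 := hb n hn
    have h2 := abs_real_inner_le_norm X (y (-(n : ℤ)))
    have h3 : ‖y (-(n : ℤ))‖ = ‖y 0‖ := by
      have h4 := hst 0 0 (-(n : ℤ))
      rw [real_inner_self_eq_norm_sq, real_inner_self_eq_norm_sq, zero_add] at h4
      exact (pow_left_inj₀ (norm_nonneg _) (norm_nonneg _) two_ne_zero).1 h4
    rw [h1, h3] at h2
    have h4 : ((|b n| : ℤ) : ℝ) ≤ (⌈‖X‖ * ‖y 0‖⌉ : ℝ) := by
      push_cast
      exact h2.trans (Int.le_ceil _)
    exact_mod_cast h4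
  refine hcon ?_
  obtain ⟨P, hP, n₀, hn₀⟩ := comb (b := fun n => b (n + n₁)) (fun n => hbd (n + n₁) (by omega))
    (J := J) (T := T) (fun N M hN hM hblock => by
      have h1 := hcoef (N + J + n₁) (by omega)
      have h2 := hcoef (M + J + n₁) (by omega)
      have h3 : ∑ j ∈ Finset.range J, c ((j : ℤ) + 1) * b (N + J + n₁ - (j + 1)) =
          ∑ j ∈ Finset.range J, c ((j : ℤ) + 1) * b (M + J + n₁ - (j + 1)) := by
        refine Finset.sum_congr rfl fun j hj => ?_
        have h4 : j < J := Finset.mem_range.1 hj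
        have h5 := hblock (J - (j + 1)) (by omega)
        have e1 : N + (J - (j + 1)) + n₁ = N + J + n₁ - (j + 1) := by omega
        have e2 : M + (J - (j + 1)) + n₁ = M + J + n₁ - (j + 1) := by omega
        simp only [e1, e2] at h5
        rw [h5]
      have h4 : ∀ n : ℕ, T ≤ n → |inner ℝ X (cmb y c (-(n : ℤ)))| < 1 / 2 := by
        intro n hn
        by_contra h5
        have h6 : n ≤ T₀ := hT₀ (not_lt.1 h5)
        omega
      have h5 := h4 (N + J + n₁) (by omega)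
      have h6 := h4 (M + J + n₁) (by omega)
      have h7 : |(b (N + J + n₁) : ℝ) - b (M + J + n₁)| < 1 := by
        have h8 : (b (N + J + n₁) : ℝ) - b (M + J + n₁) =
            inner ℝ X (cmb y c (-((N + J + n₁ : ℕ) : ℤ))) -
              inner ℝ X (cmb y c (-((M + J + n₁ : ℕ) : ℤ))) := by
          rw [h1, h2, h3]
          ring
        rw [h8]
        exact (abs_sub _ _).trans_lt (by linarith)
      have h8 : |b (N + J + n₁) - b (M + J + n₁)| < 1 := by exact_mod_cast h7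
      rw [Int.abs_lt_one_iff] at h8
      omega)
  refine ⟨P, hP, n₀ + n₁, fun n hn => ?_⟩
  have h1 := hn₀ (n - n₁) (by omega)
  have e1 : n - n₁ + P + n₁ = n + P := by omega
  have e2 : n - n₁ + n₁ = n := by omega
  simp only [e1, e2] at h1
  exact h1

end

end Pool.Agent.Helper49E
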