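import Pool.Agent.Helper49E.Law
import Pool.Agent.Helper49E.OneSided

/-!
# Adams operations at the edge: the main theorems
-/

set_option autoImplicit false
set_option linter.unusedSectionVars false

namespace Pool.Agent.Helper49E

open NumberField Complex Filter Topology ComplexConjugate IsDedekindDomain MeasureTheory Polynomial
open Pool.Agent.H341R2 Pool.Agent.W540.BE Pool.Agent.HS37.HK UnitAddTorus
open Pool.Agent.HS37.HT (IsHecke Equivalent LFun ev_of_ultra isHecke_hk exists_U)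

theorem PD.fin {Γ : Type} [AddCommGroup Γ] {φ : Γ → ℂ} (h : PD φ) (s : Finset Γ) (c : Γ → ℂ) :
    0 ≤ (∑ a ∈ s, ∑ b ∈ s, conj (c a) * c b * φ (b - a)).re := by
  classical
  have h1 := h.nonneg (Finsupp.onFinset s (fun a => if a ∈ s then c a else 0) fun a ha => by
    by_contra hcon
    exact ha (if_neg hcon))
  set c' : Γ →₀ ℂ := Finsupp.onFinset s (fun a => if a ∈ s then c a else 0) fun a ha => by
    by_contra hcon
    exact ha (if_neg hcon) with hc
  have hc1 : ∀ a ∈ s, c' a = c a := fun a ha => if_pos ha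
  have h2 : (c'.sum fun a z => c'.sum fun b w => conj z * w * φ (b - a)) =
      ∑ a ∈ s, ∑ b ∈ s, conj (c a) * c b * φ (b - a) := by
    have hsub : c'.support ⊆ s := Finsupp.support_onFinset_subset
    rw [Finsupp.sum_of_support_subset _ hsub _ (fun a _ => by simp)]
    refine Finset.sum_congr rfl fun a ha => ?_
    rw [Finsupp.sum_of_support_subset _ hsub _ (fun a _ => by simp)]
    refine Finset.sum_congr rfl fun b hb => ?_
    rw [hc1 a ha, hc1 b hb]
  rw [h2] at h1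
  exact h1

theorem PD.re {Γ : Type} [AddCommGroup Γ] {φ : Γ → ℂ} (h : PD φ) : PD fun x => ((φ x).re : ℂ) where
  symm g := by rw [h.symm, Complex.conj_re, Complex.conj_ofReal]
  nonneg c := by
    have h1 := h.fin c.support c
    have h2 := h.fin c.support fun a => conj (c a)
    have e1 : (c.sum fun a z => c.sum fun b w => conj z * w * (((φ (b - a)).re : ℝ) : ℂ)).re =
        ((∑ a ∈ c.support, ∑ b ∈ c.support, conj (c a) * c b * φ (b - a)).re +
        (∑ a ∈ c.support, ∑ b ∈ c.support, conj (conj (c a)) * conj (c b) * φ (b - a)).re) / 2 := by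
      simp only [Finsupp.sum, Complex.re_sum]
      rw [← Finset.sum_add_distrib, Finset.sum_div]
      refine Finset.sum_congr rfl fun a _ => ?_
      rw [← Finset.sum_add_distrib, Finset.sum_div]
      refine Finset.sum_congr rfl fun b _ => ?_
      simp only [Complex.mul_re, Complex.mul_im, Complex.conj_re, Complex.conj_im,
        Complex.ofReal_re, Complex.ofReal_im]
      ring
    rw [e1]
    linarith

section
variable {K : Type} [Field K] [NumberField K] {r : ℕ} {V : Fin r → Motive K}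
variable {G : Type} [AddCommGroup G] {χ : G → HeightOneSpectrum (𝓞 K) → ℂ}

theorem exists_HG (h : HeckeGroup χ) :
    ∃ χ' : G → HeightOneSpectrum (𝓞 K) → ℂ, HG χ' ∧ ∀ g, AE (χ' g) (χ g) := by
  choose χ' h1 h2 using fun g => isHecke_hk (h.hecke g)
  refine ⟨χ', ⟨h1, fun g k => ?_⟩, h2⟩
  filter_upwards [h2 (g + k), h.add g k, h2 g, h2 k] with v e1 e2 e3 e4
  rw [e1, e2, e3, e4]

/-- the order of a continuation is the order from the right -/
theorem continues_order {k : Fin r → ℤ} {χ : HeightOneSpectrum (𝓞 K) → ℂ} (hχ : IsHecke χ)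
    {m : ℤ} (h : Continues V k χ m) : HasOrder V k χ m := by
  obtain ⟨χ', h', hae⟩ := isHecke_hk hχ
  obtain ⟨B, Λ, hB, hrest⟩ := id h
  refine ⟨B, hB, ?_⟩
  rw [tendsto_iff_ultrafilter]
  intro 𝒰 hU
  refine size_lim h' hae hB hU ?_
  have h1 := (order_mean h' hae h hU).1
  exact h1.congr (fun _ => rfl) (by simp)

/-- no zeros near the edge point -/
theorem ne_zero {k : Fin r → ℤ} {χ : HeightOneSpectrum (𝓞 K) → ℂ} (hχ : IsHecke χ)
    {B : HeightOneSpectrum (𝓞 K) → ℂ[X]} (hB : IsEuler V k χ B) :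
    ∀ᶠ ε : ℝ in 𝓝[>] 0, LFun B (edge V k + ε) ≠ 0 := by
  obtain ⟨χ', h', hae⟩ := isHecke_hk hχ
  obtain ⟨⟨C, hC⟩, -⟩ := ef_data (euler_ef h' hae hB) (coef_bd k h') (coef_ae hae)
  filter_upwards [hC] with ε h1
  rw [edge_eq] at h1
  exact h1.1

/-- all mean values -/
theorem exists_mean (V : Fin r → Motive K) {χ' : G → HeightOneSpectrum (𝓞 K) → ℂ} (h : HG χ')
    {𝒰 : Ultrafilter ℝ} (hU : (𝒰 : Filter ℝ) ≤ 𝓝[>] 0) :
    ∃ z : (Fin r → ℤ) × G → ℂ, (∀ x, AvC nm 𝒰 (fun v => um V x.1 v * χ' x.2 v) (z x)) ∧ PD z := by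
  choose z hz using fun x : (Fin r → ℤ) × G => (sysK (K := K) hU).existsC (bdc (V := V) h x)
  exact ⟨z, hz, pd_mean h (sysK hU) hz⟩

theorem order_re {χ' : G → HeightOneSpectrum (𝓞 K) → ℂ} (h : HG χ') (hae : ∀ g, AE (χ' g) (χ g))
    {𝒰 : Ultrafilter ℝ} (hU : (𝒰 : Filter ℝ) ≤ 𝓝[>] 0) {z : (Fin r → ℤ) × G → ℂ}
    (hz : ∀ x, AvC nm 𝒰 (fun v => um V x.1 v * χ' x.2 v) (z x)) {x : (Fin r → ℤ) × G} {m : ℤ}
    (hm : HasOrder V x.1 (χ x.2) m) : (z x).re = -(m : ℝ) := by
  obtain ⟨B, hB, hlim⟩ := hm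
  exact tendsto_nhds_unique (size_lim (h.hk x.2) (hae x.2) hB hU (hz x).1) (hlim.mono_left hU)

/-- **part 1**: positivity of the sizes -/
theorem sizes_pos (h : HeckeGroup χ) {B : (Fin r → ℤ) × G → HeightOneSpectrum (𝓞 K) → ℂ[X]}
    (hB : ∀ x, IsEuler V x.1 (χ x.2) (B x)) (c : (Fin r → ℤ) × G →₀ ℝ) {η : ℝ} (hη : 0 < η) :
    ∀ᶠ ε : ℝ in 𝓝[>] 0,
      -η ≤ c.sum fun a s => c.sum fun b t => s * t * size V (b - a).1 (B (b - a)) ε := by
  obtain ⟨χ', h', hae⟩ := exists_HG h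
  have h1 := ev_of_ultra (f := fun ε => -(c.sum fun a s => c.sum fun b t => s * t *
    size V (b - a).1 (B (b - a)) ε)) (b := 0) (fun 𝒰 hU => ?_) hη
  · filter_upwards [h1] with ε h2
    linarith
  · obtain ⟨z, hz, hpd⟩ := exists_mean V h' hU
    refine ⟨-(c.sum fun a s => c.sum fun b t => s * t * (z (b - a)).re), ?_, ?_⟩
    · refine Tendsto.neg ?_
      unfold Finsupp.sum
      exact tendsto_finsetSum _ fun a _ => tendsto_finsetSum _ fun b _ =>
        (size_lim (h'.hk _) (hae _) (hB _) hU (hz _).1).const_mul _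
    · have h2 := hpd.fin c.support fun a => (c a : ℂ)
      have h3 : (∑ a ∈ c.support, ∑ b ∈ c.support, conj ((c a : ℝ) : ℂ) * ((c b : ℝ) : ℂ) *
          z (b - a)).re = c.sum fun a s => c.sum fun b t => s * t * (z (b - a)).re := by
        simp only [Finsupp.sum, Complex.re_sum]
        refine Finset.sum_congr rfl fun a _ => Finset.sum_congr rfl fun b _ => ?_
        rw [Complex.conj_ofReal, ← Complex.ofReal_mul, Complex.re_ofReal_mul]
      rw [h3] at h2
      linarith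

/-- **part 2**: one-sided periodicity -/
theorem one_sided_orders (h : HeckeGroup χ) (x l : (Fin r → ℤ) × G) {m : ℕ → ℤ} {j₀ : ℕ}
    (hm : ∀ j : ℕ, j₀ ≤ j → HasOrder V (x + j • l).1 (χ (x + j • l).2) (m j)) :
    ∃ P, 1 ≤ P ∧ ∃ j₁, ∀ j, j₁ ≤ j → m (j + P) = m j := by
  obtain ⟨χ', h', hae⟩ := exists_HG h
  obtain ⟨𝒰, hU⟩ := exists_U
  obtain ⟨z, hz, hpd⟩ := exists_mean V h' hU
  obtain ⟨Γ⟩ := gns hpd
  let _ : InnerProductSpace ℝ Γ.H := InnerProductSpace.complexToReal
  have hre : ∀ a b : Γ.H, inner ℝ a b = (inner ℂ a b : ℂ).re := fun a b => rfl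
  obtain ⟨P, hP, j₁, hj₁⟩ := one_sided (E := Γ.H) (y := fun j : ℤ => Γ.e (x - j • l))
    (X := Γ.e 0) (b := fun j => -m j) (n₁ := j₀) (fun i j k => by
      rw [hre, hre, Γ.inner_e, Γ.inner_e]
      congr 2
      rw [add_smul, add_smul]
      abel) (fun n hn => by
      rw [hre, Γ.inner_e]
      have h1 : x - (-(n : ℤ)) • l - 0 = x + n • l := by
        rw [neg_smul, sub_neg_eq_add, sub_zero, natCast_zsmul]
      rw [h1]
      have h2 := order_re h' hae hU hz (hm n hn)
      push_cast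
      exact h2)
  exact ⟨P, hP, j₁, fun j hj => neg_injective (hj₁ j hj)⟩

end

end Pool.Agent.Helper49E
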