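import Pool.Agent.Helper49E.Defs
import Pool.Agent.Helper49E.Dec
import Pool.Agent.HS37.HT.Fin

/-!
# The mean values of the eigenvalues
-/

set_option autoImplicit false
set_option linter.unusedSectionVars false

namespace Pool.Agent.Helper49E

open NumberField Complex Filter Topology ComplexConjugate IsDedekindDomain Polynomial
open Pool.Agent.H341R2 Pool.Agent.W540.BE Pool.Agent.HS37.HK UnitAddTorus
open Pool.Agent.HS37.HT (IsHecke Equivalent LFun ev_of_ultra isHecke_hk exists_U)

section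
variable {K : Type} [Field K] [NumberField K] {r : ℕ} (V : Fin r → Motive K)

theorem four_neg {k : Fin r → ℤ} (t : UnitAddTorus (Fin r)) :
    mFourier (-k) t = conj (mFourier k t) := mFourier_neg

theorem four_norm (k : Fin r → ℤ) (t : UnitAddTorus (Fin r)) : ‖mFourier k t‖ = 1 := by
  simp [mFourier, fourier_apply]

theorem four_sub (a b : Fin r → ℤ) (t : UnitAddTorus (Fin r)) :
    mFourier (b - a) t = conj (mFourier a t) * mFourier b t := by
  rw [sub_eq_add_neg, mFourier_add, mFourier_neg, mul_comm]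

/-- the normalised trace -/
noncomputable def um (k : Fin r → ℤ) (v : HeightOneSpectrum (𝓞 K)) : ℂ :=
  ∑ j : ∀ i, Fin (V i).rank, mFourier k (angle V v j)

theorem card_idx : Fintype.card (∀ i, Fin (V i).rank) = rk V := by
  simp [rk]

theorem um_le (k : Fin r → ℤ) (v : HeightOneSpectrum (𝓞 K)) : ‖um V k v‖ ≤ rk V := by
  unfold um
  refine (norm_sum_le _ _).trans ?_
  simp only [four_norm, Finset.sum_const, Finset.card_univ, card_idx, nsmul_eq_mul, mul_one]
  exact le_rfl

theorem um_zero (v : HeightOneSpectrum (𝓞 K)) : um V 0 v = rk V := by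
  unfold um
  simp only [mFourier_zero, ContinuousMap.one_apply, Finset.sum_const, Finset.card_univ, card_idx,
    nsmul_eq_mul, mul_one]

/-- the weight -/
noncomputable def wt (k : Fin r → ℤ) : ℝ := ((∑ i, k i * (V i).weight : ℤ) : ℝ) / 2

theorem edge_eq (k : Fin r → ℤ) : ((wt V k : ℝ) : ℂ) + 1 = edge V k := by
  unfold edge wt
  push_cast
  rfl

theorem four_one (n : ℤ) (a : ℝ) :
    fourier n (((a / (2 * Real.pi) : ℝ) : UnitAddCircle)) = cexp (a * I) ^ n := by
  rw [fourier_coe_apply, ← Complex.exp_int_mul]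
  congr 1
  have : (Real.pi : ℂ) ≠ 0 := by exact_mod_cast Real.pi_ne_zero
  push_cast
  field_simp

theorem eig_good {v : HeightOneSpectrum (𝓞 K)}
    (h : ∀ i j, ‖(V i).frob v j‖ = (nm v : ℝ) ^ (((V i).weight : ℝ) / 2)) (k : Fin r → ℤ)
    (j : ∀ i, Fin (V i).rank) :
    eig V k v j = (nm v : ℂ) ^ ((wt V k : ℝ) : ℂ) * mFourier k (angle V v j) := by
  have hq : (0 : ℝ) < nm v := by
    have := two_le_nm v
    exact_mod_cast (by omega : 0 < nm v)
  have h1 : ∀ i, (V i).frob v (j i) ^ k i =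
      (((nm v : ℝ) ^ ((k i * (V i).weight : ℤ) / 2 : ℝ) : ℝ) : ℂ) *
        fourier (k i) (angle V v j i) := by
    intro i
    conv_lhs => rw [← Complex.norm_mul_exp_arg_mul_I ((V i).frob v (j i)), h i (j i), mul_zpow]
    unfold angle
    rw [four_one]
    congr 1
    rw [← Complex.ofReal_zpow, ← Real.rpow_intCast, ← Real.rpow_mul hq.le]
    congr 2
    push_cast
    ring
  unfold eig
  rw [Finset.prod_congr rfl fun i _ => h1 i, Finset.prod_mul_distrib]
  congr 1
  rw [← Complex.ofReal_prod, ← Real.rpow_sum_of_pos hq, Complex.ofReal_cpow hq.le,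
    Complex.ofReal_natCast]
  congr 2
  unfold wt
  push_cast
  rw [Finset.sum_div]

theorem ev_good : ∀ᶠ v : HeightOneSpectrum (𝓞 K) in cofinite, ∀ i j,
    ‖(V i).frob v j‖ = (nm v : ℝ) ^ (((V i).weight : ℝ) / 2) := by
  rw [Filter.eventually_all]
  intro i
  exact (V i).pure

variable {V}

/-- the Euler factors -/
theorem euler_ef {k : Fin r → ℤ} {χ χ' : HeightOneSpectrum (𝓞 K) → ℂ} (h' : Hk χ')
    (hae : AE χ' χ) {B : HeightOneSpectrum (𝓞 K) → ℂ[X]} (hB : IsEuler V k χ B) :
    EF (wt V k) (rk V) (fun v => Finset.univ.val.map fun j => eig V k v j * χ v) B := by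
  refine ⟨?_, fun v => ?_⟩
  · filter_upwards [ev_good V, hB.1, hae] with v h1 h2 h3
    refine ⟨fun β hβ => ?_, ?_, fun z => ?_⟩
    · obtain ⟨j, -, rfl⟩ := Multiset.mem_map.1 hβ
      rw [norm_mul, ← h3, h'.1, mul_one, eig_good V h1, norm_mul, four_norm, mul_one,
        Complex.norm_natCast_cpow_of_pos (by have := two_le_nm v; omega), Complex.ofReal_re]
    · rw [Multiset.card_map]
      exact (Finset.card_univ.trans (card_idx V)).le
    · rw [h2 z, Multiset.map_map]
      rfl
  · rw [edge_eq]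
    exact hB.2 v

theorem coef_ae {k : Fin r → ℤ} {χ χ' : HeightOneSpectrum (𝓞 K) → ℂ} (hae : AE χ' χ) :
    ∀ᶠ v in cofinite, um V k v * χ' v =
      (Finset.univ.val.map fun j : ∀ i, Fin (V i).rank => eig V k v j * χ v).sum *
        (nm v : ℂ) ^ (-((wt V k : ℝ) : ℂ)) := by
  filter_upwards [ev_good V, hae] with v h1 h2
  have h3 : (Finset.univ.val.map fun j : ∀ i, Fin (V i).rank => eig V k v j * χ v).sum =
      ∑ j : ∀ i, Fin (V i).rank, eig V k v j * χ v := rfl
  rw [h3, h2, um, Finset.sum_mul, Finset.sum_mul]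
  refine Finset.sum_congr rfl fun j _ => ?_
  rw [eig_good V h1, Complex.cpow_neg]
  have h4 : (nm v : ℂ) ^ ((wt V k : ℝ) : ℂ) ≠ 0 := by
    rw [Complex.cpow_ne_zero_iff]
    exact Or.inl (nm_ne v)
  field_simp

theorem coef_bd (k : Fin r → ℤ) {χ' : HeightOneSpectrum (𝓞 K) → ℂ} (h' : Hk χ')
    (v : HeightOneSpectrum (𝓞 K)) : ‖um V k v * χ' v‖ ≤ rk V := by
  rw [norm_mul, h'.1, mul_one]
  exact um_le V k v

theorem LFun_eq (B : HeightOneSpectrum (𝓞 K) → ℂ[X]) (s : ℂ) : LFun B s = LF B s := rfl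

/-- the mean value is minus the order -/
theorem order_mean {k : Fin r → ℤ} {χ χ' : HeightOneSpectrum (𝓞 K) → ℂ} (h' : Hk χ')
    (hae : AE χ' χ) {m : ℤ} (hm : Continues V k χ m) {𝒰 : Ultrafilter ℝ}
    (hU : (𝒰 : Filter ℝ) ≤ 𝓝[>] 0) : AvC nm 𝒰 (fun v => um V k v * χ' v) (-m) := by
  obtain ⟨B, Λ, hB, hΛ, hL, hord⟩ := hm
  obtain ⟨-, h1⟩ := ef_data (euler_ef h' hae hB) (coef_bd k h') (coef_ae hae)
  rw [← edge_eq] at hΛ hL hord
  refine h1 (sysK hU) hΛ hord ?_
  have h2 : Tendsto (fun ε : ℝ => ((wt V k : ℝ) : ℂ) + 1 + ε) (𝓝[>] 0)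
      (𝓝 (((wt V k : ℝ) : ℂ) + 1)) := path_tendsto' _
  filter_upwards [h2.eventually hL, self_mem_nhdsWithin] with ε h3 h4
  have hε : (0 : ℝ) < ε := h4
  refine h3 ?_
  simp only [Complex.add_re, Complex.ofReal_re, Complex.one_re]
  linarith

/-- the size along an ultrafilter -/
theorem size_lim {k : Fin r → ℤ} {χ χ' : HeightOneSpectrum (𝓞 K) → ℂ} (h' : Hk χ')
    (hae : AE χ' χ) {B : HeightOneSpectrum (𝓞 K) → ℂ[X]} (hB : IsEuler V k χ B)
    {𝒰 : Ultrafilter ℝ} (hU : (𝒰 : Filter ℝ) ≤ 𝓝[>] 0) {x : ℝ}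
    (hx : Av nm 𝒰 (fun v => (um V k v * χ' v).re) x) :
    Tendsto (size V k B) 𝒰 (𝓝 x) := by
  obtain ⟨⟨C, hC⟩, -⟩ := ef_data (euler_ef h' hae hB) (coef_bd k h') (coef_ae hae)
  have hy : ∀ᶠ ε : ℝ in 𝓝[>] 0, |EP (nm (K := K)) ε fun v => (um V k v * χ' v).re| ≤
      (2 * rk V) * lam ε := by
    have h2 : ∀ᶠ ε : ℝ in 𝓝[>] 0, (EP (nm (K := K)) ε fun _ => 1) / lam ε < 2 :=
      EP_one.eventually_lt_const (by norm_num : (1 : ℝ) < 2)
    filter_upwards [h2, lam_tendsto.eventually_gt_atTop 0, self_mem_nhdsWithin] with ε h3 h4 h5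
    have hε : (0 : ℝ) < ε := h5
    rw [div_lt_iff₀ h4] at h3
    have hb : ∀ v : HeightOneSpectrum (𝓞 K), |(um V k v * χ' v).re| ≤ rk V := fun v =>
      (Complex.abs_re_le_norm _).trans (coef_bd k h' v)
    have e1 := EP_le (N := nm (K := K)) nsys hε hb (b := rk V)
      fun v => (le_abs_self _).trans (hb v)
    have e2 := EP_le (N := nm (K := K)) nsys hε (φ := fun v => (-1) * (um V k v * χ' v).re)
      (B := rk V) (fun v => by rw [abs_mul, abs_neg, abs_one, one_mul]; exact hb v)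
      (b := rk V) fun v => by
        have := neg_abs_le ((um V k v * χ' v).re)
        have := hb v
        linarith
    rw [EP_const_mul] at e2
    have e3 : (rk V : ℝ) * (EP (nm (K := K)) ε fun _ => 1) ≤ (2 * rk V) * lam ε := by
      calc _ ≤ (rk V : ℝ) * (2 * lam ε) :=
            mul_le_mul_of_nonneg_left h3.le (Nat.cast_nonneg _)
        _ = _ := by ring
    rw [abs_le]
    constructor <;> linarith
  have h1 := size_compare (y := fun ε => EP (nm (K := K)) ε fun v => (um V k v * χ' v).re)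
    (ℓ := fun ε => Real.log ‖LF B (((wt V k : ℝ) : ℂ) + 1 + ε)‖) hy
    (hC.mono fun ε h => h.2)
  have h2 := (h1.mono_left hU)
  have h3 := Tendsto.sub hx h2
  rw [sub_zero] at h3
  refine h3.congr fun ε => ?_
  unfold size
  rw [LFun_eq, ← edge_eq]
  ring

/-- a group of Hecke characters, all values of absolute value one -/
structure HG {G : Type} [AddCommGroup G] (χ' : G → HeightOneSpectrum (𝓞 K) → ℂ) : Prop where
  hk : ∀ g, Hk (χ' g)
  add : ∀ g h, AE (χ' (g + h)) fun v => χ' g v * χ' h v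

variable {G : Type} [AddCommGroup G] {χ' : G → HeightOneSpectrum (𝓞 K) → ℂ}

theorem HG.zero (h : HG χ') : AE (χ' 0) fun _ => 1 := by
  have h1 := h.add 0 0
  filter_upwards [h1] with v hv
  rw [add_zero] at hv
  have h2 : χ' 0 v ≠ 0 := by
    intro h0
    have := (h.hk 0).1 v
    rw [h0, norm_zero] at this
    exact zero_ne_one this
  have h3 : χ' 0 v * 1 = χ' 0 v * χ' 0 v := by rw [mul_one]; exact hv
  exact (mul_left_cancel₀ h2 h3).symm

theorem HG.neg (h : HG χ') (g : G) : AE (χ' (-g)) fun v => conj (χ' g v) := by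
  have h1 := h.add g (-g)
  filter_upwards [h1, h.zero] with v hv h0
  rw [add_neg_cancel, h0] at hv
  rw [conj_unit' ((h.hk g).1 v)]
  exact eq_inv_of_mul_eq_one_right hv.symm

theorem HG.sub (h : HG χ') (a b : G) : AE (χ' (b - a)) fun v => conj (χ' a v) * χ' b v := by
  have h1 := h.add b (-a)
  filter_upwards [h1, h.neg a] with v hv h2
  rw [sub_eq_add_neg, hv, h2, mul_comm]

/-- the coefficients are bounded -/
theorem bdc (h : HG χ') (x : (Fin r → ℤ) × G) : BdC fun v => um V x.1 v * χ' x.2 v :=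
  ⟨_, coef_bd x.1 (h.hk x.2)⟩

/-- the mean values form a positive definite function -/
theorem pd_mean (h : HG χ') {𝒰 : Ultrafilter ℝ} (hS : Sys (nm (K := K)) 𝒰)
    {z : (Fin r → ℤ) × G → ℂ} (hz : ∀ x, AvC nm 𝒰 (fun v => um V x.1 v * χ' x.2 v) (z x)) :
    PD z := by
  constructor
  · intro x
    refine AvC.unique (hz (-x)) (AvC.congr_fin hS (bdc h x).conj ?_ (hz x).conj)
    have h1 := h.neg x.2
    refine (Filter.eventually_cofinite.1 h1).subset fun v hv hv' => hv ?_
    have h2 : um V (-x).1 v = conj (um V x.1 v) := by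
      unfold um
      rw [map_sum]
      exact Finset.sum_congr rfl fun j _ => four_neg _
    rw [map_mul, h2, Prod.snd_neg, hv']
  · intro c
    set S : ℂ := c.sum fun a p => c.sum fun b q => conj p * q * z (b - a) with hSdef
    -- the sum of the mean values
    have h1 : AvC nm 𝒰 (fun v => ∑ a ∈ c.support, ∑ b ∈ c.support, conj (c a) * c b *
        (um V (b - a).1 v * χ' (b - a).2 v)) S := by
      refine AvC.sum hS _ (fun a _ => BdC.sum _ fun b _ => (BdC.const _).mul (bdc h _))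
        fun a _ => AvC.sum hS _ (fun b _ => (BdC.const _).mul (bdc h _)) fun b _ =>
          AvC.const_mul hS (bdc h _) (hz _) _
    have h2 : AvC nm 𝒰 (fun v => ∑ j : ∀ i, Fin (V i).rank,
        conj (∑ b ∈ c.support, c b * (mFourier b.1 (angle V v j) * χ' b.2 v)) *
          ∑ b ∈ c.support, c b * (mFourier b.1 (angle V v j) * χ' b.2 v)) S := by
      refine AvC.congr_fin hS (BdC.sum _ fun a _ => BdC.sum _ fun b _ =>
        (BdC.const _).mul (bdc h _)) ?_ h1
      have h3 : ∀ᶠ v in cofinite, ∀ a ∈ c.support, ∀ b ∈ c.support,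
          χ' (b.2 - a.2) v = conj (χ' a.2 v) * χ' b.2 v := by
        rw [Filter.eventually_all_finset]
        intro a _
        rw [Filter.eventually_all_finset]
        intro b _
        exact h.sub a.2 b.2
      refine (Filter.eventually_cofinite.1 h3).subset fun v hv hv' => hv ?_
      simp only [map_sum, map_mul, Finset.sum_mul_sum]
      symm
      rw [Finset.sum_comm]
      refine Finset.sum_congr rfl fun a ha => ?_
      rw [Finset.sum_comm]
      refine Finset.sum_congr rfl fun b hb => ?_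
      rw [Prod.snd_sub, hv' a ha b hb, um, Prod.fst_sub, Finset.sum_mul, Finset.mul_sum]
      refine Finset.sum_congr rfl fun j _ => ?_
      rw [four_sub]
      ring
    refine Av.nonneg hS h2.1 fun v => ?_
    rw [Complex.re_sum]
    refine Finset.sum_nonneg fun j _ => ?_
    rw [mul_comm, Complex.mul_conj, Complex.ofReal_re]
    exact Complex.normSq_nonneg _

end

end Pool.Agent.Helper49E
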