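import Pool.Agent.Helper49E.Gns

/-!
# Splitting a positive definite integral function along an ultrafilter
-/

set_option autoImplicit false

namespace Pool.Agent.Helper49E

open Filter Topology ComplexConjugate

section
variable {Γ : Type} [AddCommGroup Γ]
set_option linter.unusedSectionVars false

/-- bounded functions -/
def Bf (f : Γ → ℂ) : Prop := ∃ C : ℝ, ∀ g, ‖f g‖ ≤ C

/-- the values are integers -/
def IsI (f : Γ → ℂ) : Prop := ∀ g, ∃ n : ℤ, f g = n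

theorem Bf.sub {f g : Γ → ℂ} (hf : Bf f) (hg : Bf g) : Bf fun x => f x - g x := by
  obtain ⟨C, hC⟩ := hf
  obtain ⟨D, hD⟩ := hg
  exact ⟨C + D, fun x => (norm_sub_le _ _).trans (add_le_add (hC x) (hD x))⟩

theorem IsI.sub {f g : Γ → ℂ} (hf : IsI f) (hg : IsI g) : IsI fun x => f x - g x := by
  intro x
  obtain ⟨m, hm⟩ := hf x
  obtain ⟨n, hn⟩ := hg x
  exact ⟨m - n, by push_cast; rw [hm, hn]⟩

/-- an integral function with a limit is eventually constant -/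
theorem ev_eq {ι : Type*} {𝒲 : Ultrafilter ι} {f : ι → ℂ} (hf : ∀ i, ∃ n : ℤ, f i = n) {z : ℂ}
    (hz : Tendsto f 𝒲 (𝓝 z)) : (∀ᶠ g in (𝒲 : Filter ι), f g = z) ∧ ∃ n : ℤ, z = n := by
  have h1 : ∀ᶠ g in (𝒲 : Filter ι), ‖f g - z‖ < 1 / 2 := by
    have h2 := (tendsto_iff_norm_sub_tendsto_zero.1 hz)
    exact h2.eventually_lt_const (by norm_num)
  obtain ⟨g₀, hg₀⟩ := h1.exists
  have h3 : ∀ᶠ g in (𝒲 : Filter ι), f g = f g₀ := by
    filter_upwards [h1] with g hg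
    obtain ⟨m, hm⟩ := hf g
    obtain ⟨n, hn⟩ := hf g₀
    have h4 : ‖f g - f g₀‖ < 1 := by
      have h5 : f g - f g₀ = (f g - z) - (f g₀ - z) := by ring
      rw [h5]
      exact (norm_sub_le _ _).trans_lt (by linarith)
    have h6 : m = n := by
      rw [hm, hn, ← Int.cast_sub, Complex.norm_intCast] at h4
      have h7 : |m - n| < 1 := by exact_mod_cast h4
      rw [Int.abs_lt_one_iff] at h7
      omega
    rw [hm, hn, h6]
  have h4 : z = f g₀ := tendsto_nhds_unique hz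
    (tendsto_const_nhds.congr' (h3.mono fun g hg => hg.symm))
  refine ⟨by rw [h4]; exact h3, ?_⟩
  rw [h4]
  exact hf g₀

/-- the limit -/
noncomputable def ul (𝒲 : Ultrafilter Γ) (f : Γ → ℂ) : ℂ := limUnder (𝒲 : Filter Γ) f

theorem ul_tendsto (𝒲 : Ultrafilter Γ) {f : Γ → ℂ} (hf : Bf f) :
    Tendsto f 𝒲 (𝓝 (ul 𝒲 f)) :=
  tendsto_nhds_limUnder (exists_lim 𝒲 hf.choose_spec)

/-- limits of the translates -/
noncomputable def tp (𝒲 : Ultrafilter Γ) (f : Γ → ℂ) (g : Γ) : ℂ := ul 𝒲 fun k => f (g + k)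

/-- limits of the translates in the other direction -/
noncomputable def tm (𝒲 : Ultrafilter Γ) (f : Γ → ℂ) (g : Γ) : ℂ := ul 𝒲 fun h => f (g - h)

variable {𝒲 : Ultrafilter Γ} {f g : Γ → ℂ}

theorem Bf.p (hf : Bf f) (x : Γ) : Bf fun k => f (x + k) := hf.elim fun C h => ⟨C, fun _ => h _⟩
theorem Bf.m (hf : Bf f) (x : Γ) : Bf fun k => f (x - k) := hf.elim fun C h => ⟨C, fun _ => h _⟩

theorem tp_tendsto (hf : Bf f) (x : Γ) : Tendsto (fun k => f (x + k)) 𝒲 (𝓝 (tp 𝒲 f x)) :=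
  ul_tendsto 𝒲 (hf.p x)

theorem tm_tendsto (hf : Bf f) (x : Γ) : Tendsto (fun k => f (x - k)) 𝒲 (𝓝 (tm 𝒲 f x)) :=
  ul_tendsto 𝒲 (hf.m x)

theorem Bf.tp (hf : Bf f) : Bf (tp 𝒲 f) := by
  obtain ⟨C, h⟩ := id hf
  exact ⟨C, fun x => le_of_tendsto (tp_tendsto hf x).norm (Eventually.of_forall fun _ => h _)⟩

theorem Bf.tm (hf : Bf f) : Bf (tm 𝒲 f) := by
  obtain ⟨C, h⟩ := id hf
  exact ⟨C, fun x => le_of_tendsto (tm_tendsto hf x).norm (Eventually.of_forall fun _ => h _)⟩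

theorem IsI.tp (hf : Bf f) (h : IsI f) : IsI (tp 𝒲 f) := fun x =>
  (ev_eq (fun _ => h _) (tp_tendsto (𝒲 := 𝒲) hf x)).2

theorem IsI.tm (hf : Bf f) (h : IsI f) : IsI (tm 𝒲 f) := fun x =>
  (ev_eq (fun _ => h _) (tm_tendsto (𝒲 := 𝒲) hf x)).2

/-- the double limit `lim_h lim_k f (x - h + k)` -/
noncomputable def av (𝒲 : Ultrafilter Γ) (f : Γ → ℂ) : Γ → ℂ := tm 𝒲 (tp 𝒲 f)

theorem Bf.av (hf : Bf f) : Bf (av 𝒲 f) := hf.tp.tm

theorem IsI.av (hf : Bf f) (h : IsI f) : IsI (av 𝒲 f) := IsI.tm hf.tp (h.tp hf)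

theorem tp_sub (hf : Bf f) (hg : Bf g) (x : Γ) :
    tp 𝒲 (fun y => f y - g y) x = tp 𝒲 f x - tp 𝒲 g x :=
  tendsto_nhds_unique (tp_tendsto (hf.sub hg) x) ((tp_tendsto hf x).sub (tp_tendsto hg x))

theorem tm_sub (hf : Bf f) (hg : Bf g) (x : Γ) :
    tm 𝒲 (fun y => f y - g y) x = tm 𝒲 f x - tm 𝒲 g x :=
  tendsto_nhds_unique (tm_tendsto (hf.sub hg) x) ((tm_tendsto hf x).sub (tm_tendsto hg x))

theorem av_sub (hf : Bf f) (hg : Bf g) :
    av 𝒲 (fun y => f y - g y) = fun x => av 𝒲 f x - av 𝒲 g x := by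
  funext x
  have h1 : tp 𝒲 (fun y => f y - g y) = fun x => tp 𝒲 f x - tp 𝒲 g x :=
    funext fun x => tp_sub hf hg x
  unfold av
  rw [h1, tm_sub hf.tp hg.tp]

variable {φ : Γ → ℂ}

theorem Gns.sq (G : Gns φ) (a : Γ) : ‖G.e a‖ ^ 2 = (φ 0).re := by
  have h1 := G.inner_e a a
  rw [sub_self] at h1
  rw [← h1, ← inner_self_eq_norm_sq (𝕜 := ℂ)]
  rfl

theorem PD.bd (h : PD φ) : Bf φ := by
  obtain ⟨G⟩ := gns h
  refine ⟨‖G.e 0‖ * Real.sqrt (φ 0).re, fun g => ?_⟩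
  have h1 := G.inner_e 0 g
  rw [sub_zero] at h1
  rw [← h1, ← G.sq g, Real.sqrt_sq (norm_nonneg _)]
  exact norm_inner_le_norm _ _

theorem PD.norm_le (h : PD φ) (g : Γ) : ‖φ g‖ ≤ (φ 0).re := by
  obtain ⟨G⟩ := gns h
  have h1 := G.inner_e 0 g
  rw [sub_zero] at h1
  rw [← h1]
  refine (norm_inner_le_norm _ _).trans (le_of_eq ?_)
  have h2 := G.sq 0
  have h3 := G.sq g
  have h4 : ‖G.e 0‖ = ‖G.e g‖ := by
    have h5 := h2.trans h3.symm
    exact (pow_left_inj₀ (norm_nonneg _) (norm_nonneg _) two_ne_zero).1 h5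
  rw [← h4, ← h2, sq]

theorem PD.zero_nonneg (h : PD φ) : 0 ≤ (φ 0).re := (norm_nonneg _).trans (h.norm_le 0)

theorem PD.eq_zero (h : PD φ) (h0 : (φ 0).re = 0) : ∀ g, φ g = 0 := fun g => by
  have h1 := h.norm_le g
  rw [h0] at h1
  exact norm_le_zero_iff.1 h1

/-- the weak limits of the translates -/
theorem Gns.weak (G : Gns φ) (𝒲 : Ultrafilter Γ) : ∃ z : Γ → G.H, ∀ a y,
    Tendsto (fun k => inner ℂ y (G.e (a + k))) 𝒲 (𝓝 (inner ℂ y (z a))) := by
  have h1 : ∀ a : Γ, ‖G.e a‖ ≤ Real.sqrt (φ 0).re := fun a => by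
    rw [← G.sq a, Real.sqrt_sq (norm_nonneg _)]
  choose z hz using fun a : Γ => exists_weak 𝒲 (fun k => G.e (a + k)) fun k => h1 (a + k)
  exact ⟨z, hz⟩

variable {G : Gns φ} {z : Γ → G.H}

theorem inner_ez (h : PD φ) (hz : ∀ a y, Tendsto (fun k => inner ℂ y (G.e (a + k))) 𝒲
    (𝓝 (inner ℂ y (z a)))) (a b : Γ) : inner ℂ (G.e a) (z b) = tp 𝒲 φ (b - a) := by
  refine tendsto_nhds_unique (hz b (G.e a)) ((tp_tendsto h.bd (b - a)).congr fun k => ?_)
  rw [G.inner_e]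
  congr 1
  abel

theorem inner_zz (h : PD φ) (hz : ∀ a y, Tendsto (fun k => inner ℂ y (G.e (a + k))) 𝒲
    (𝓝 (inner ℂ y (z a)))) (a b : Γ) : inner ℂ (z a) (z b) = av 𝒲 φ (b - a) := by
  have h1 := (Complex.continuous_conj.tendsto _).comp (hz a (z b))
  rw [inner_conj_symm] at h1
  refine tendsto_nhds_unique h1 ((tm_tendsto h.bd.tp (b - a)).congr fun k => ?_)
  simp only [Function.comp_apply]
  rw [inner_conj_symm, inner_ez h hz]
  congr 1
  abel

theorem PD.mean (h : PD φ) : PD (av 𝒲 φ) := by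
  obtain ⟨G⟩ := gns h
  obtain ⟨z, hz⟩ := G.weak 𝒲
  exact PD.of_gram z (inner_zz h hz)

theorem PD.sub_av (h : PD φ) : PD fun g => φ g - av 𝒲 φ g := by
  obtain ⟨G⟩ := gns h
  obtain ⟨z, hz⟩ := G.weak 𝒲
  constructor
  · intro g
    rw [h.symm, h.mean.symm, map_sub]
  · intro c
    set E : Γ → G.H := fun k => c.sum fun a w => w • G.e (a + k) with hE
    set Z : G.H := c.sum fun a w => w • z a with hZ
    have e1 : ∀ k, inner ℂ (E k) (E k) =
        c.sum fun a z => c.sum fun b w => conj z * w * φ (b - a) := by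
      intro k
      rw [hE]
      simp only
      rw [Finsupp.sum_inner]
      refine Finsupp.sum_congr fun a _ => ?_
      rw [inner_smul_left, Finsupp.inner_sum, Finsupp.mul_sum]
      refine Finsupp.sum_congr fun b _ => ?_
      rw [inner_smul_right, G.inner_e, add_sub_add_right_eq_sub]
      ring
    have e2 : inner ℂ Z Z = c.sum fun a z => c.sum fun b w => conj z * w * av 𝒲 φ (b - a) := by
      rw [hZ, Finsupp.sum_inner]
      refine Finsupp.sum_congr fun a _ => ?_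
      rw [inner_smul_left, Finsupp.inner_sum, Finsupp.mul_sum]
      refine Finsupp.sum_congr fun b _ => ?_
      rw [inner_smul_right, inner_zz h hz]
      ring
    have e3 : Tendsto (fun k => inner ℂ Z (E k)) 𝒲 (𝓝 (inner ℂ Z Z)) := by
      have f1 : ∀ k, (inner ℂ Z (E k) : ℂ) =
          ∑ a ∈ c.support, c a * inner ℂ Z (G.e (a + k)) := fun k => by
        rw [hE, Finsupp.inner_sum]
        exact Finset.sum_congr rfl fun a _ => inner_smul_right _ _ _
      have f2 : (inner ℂ Z Z : ℂ) = ∑ a ∈ c.support, c a * inner ℂ Z (z a) := by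
        conv_lhs => rw [hZ, ← hZ, Finsupp.inner_sum]
        exact Finset.sum_congr rfl fun a _ => inner_smul_right _ _ _
      rw [f2]
      simp only [f1]
      exact tendsto_finsetSum _ fun a _ => (hz a Z).const_mul (c a)
    have e4 : ∀ k, ‖E k‖ = ‖E 0‖ := fun k => by
      have h3 : ‖E k‖ ^ 2 = ‖E 0‖ ^ 2 := by
        rw [← inner_self_eq_norm_sq (𝕜 := ℂ), ← inner_self_eq_norm_sq (𝕜 := ℂ), e1, e1]
      exact (pow_left_inj₀ (norm_nonneg _) (norm_nonneg _) two_ne_zero).1 h3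
    have e5 : ‖(inner ℂ Z Z : ℂ)‖ ≤ ‖Z‖ * ‖E 0‖ :=
      le_of_tendsto e3.norm (Eventually.of_forall fun k => by
        rw [← e4 k]
        exact norm_inner_le_norm _ _)
    have e6 : ‖Z‖ ≤ ‖E 0‖ := by
      rw [inner_self_eq_norm_sq_to_K, norm_pow] at e5
      simp only [Complex.coe_algebraMap, Complex.norm_real, norm_norm] at e5
      by_contra hcon
      push Not at hcon
      have : 0 < ‖Z‖ := (norm_nonneg _).trans_lt hcon
      nlinarith
    have e7 : (c.sum fun a z => c.sum fun b w => conj z * w * (φ (b - a) - av 𝒲 φ (b - a))) =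
        inner ℂ (E 0) (E 0) - inner ℂ Z Z := by
      rw [e1, e2]
      simp only [mul_sub, Finsupp.sum_sub]
    rw [e7, Complex.sub_re]
    have e8 : (inner ℂ (E 0) (E 0) : ℂ).re = ‖E 0‖ ^ 2 := inner_self_eq_norm_sq (𝕜 := ℂ) _
    have e9 : (inner ℂ Z Z : ℂ).re = ‖Z‖ ^ 2 := inner_self_eq_norm_sq (𝕜 := ℂ) _
    rw [e8, e9, sub_nonneg]
    exact pow_le_pow_left₀ (norm_nonneg _) e6 2

/-- the kernel of the square -/
theorem av_av (h : PD φ) (h0 : (av 𝒲 (av 𝒲 φ) 0).re = 0) : ∀ g, av 𝒲 φ g = 0 := by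
  obtain ⟨G⟩ := gns h
  obtain ⟨z, hz⟩ := G.weak 𝒲
  have hzb : ∀ a : Γ, ‖z a‖ ≤ Real.sqrt (av 𝒲 φ 0).re := fun a => by
    have h1 := inner_zz h hz a a
    rw [sub_self] at h1
    rw [← h1]
    have : (inner ℂ (z a) (z a) : ℂ).re = ‖z a‖ ^ 2 := inner_self_eq_norm_sq (𝕜 := ℂ) _
    rw [this, Real.sqrt_sq (norm_nonneg _)]
  obtain ⟨t, ht⟩ := exists_weak 𝒲 (fun k => z (0 - k)) fun k => hzb (0 - k)
  have e1 : ∀ a, inner ℂ (G.e a) t = av 𝒲 φ (0 - a) := by
    intro a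
    refine tendsto_nhds_unique (ht (G.e a)) ((tm_tendsto h.bd.tp (0 - a)).congr fun k => ?_)
    rw [inner_ez h hz]
    congr 1
    abel
  have e2 : ∀ c, inner ℂ t (z c) = tp 𝒲 (av 𝒲 φ) c := by
    intro c
    refine tendsto_nhds_unique (hz c t) ((tp_tendsto h.mean.bd c).congr fun k => ?_)
    rw [← inner_conj_symm, e1, ← h.mean.symm]
    congr 1
    abel
  have e3 : inner ℂ t t = av 𝒲 (av 𝒲 φ) 0 := by
    refine tendsto_nhds_unique (ht t) ((tm_tendsto h.mean.bd.tp 0).congr fun k => ?_)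
    rw [e2]
  have e4 : t = 0 := by
    have : (inner ℂ t t : ℂ).re = ‖t‖ ^ 2 := inner_self_eq_norm_sq (𝕜 := ℂ) _
    rw [e3, h0] at this
    exact norm_eq_zero.1 (pow_eq_zero_iff two_ne_zero |>.1 this.symm)
  intro g
  have h1 := e1 (-g)
  rw [e4, inner_zero_right, zero_sub, neg_neg] at h1
  exact h1.symm

/-- **the splitting**: for an integral positive definite function `φ`, the function `av φ` is a fixed
point of `av` -/
theorem av_idem (h : PD φ) (hi : IsI φ) : av 𝒲 (fun g => φ g - av 𝒲 φ g) = 0 := by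
  set δ : Γ → ℂ := fun g => φ g - av 𝒲 φ g with hδ
  have hδp : PD δ := h.sub_av
  -- iterates
  have hP : ∀ n, PD ((av 𝒲)^[n] φ) ∧ IsI ((av 𝒲)^[n] φ) := by
    intro n
    induction n with
    | zero => exact ⟨h, hi⟩
    | succ n ih =>
      rw [Function.iterate_succ_apply']
      exact ⟨ih.1.mean, ih.2.av ih.1.bd⟩
  have hD : ∀ n, (av 𝒲)^[n] δ = fun g => (av 𝒲)^[n] φ g - (av 𝒲)^[n + 1] φ g := by
    intro n
    induction n with
    | zero => rfl
    | succ n ih =>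
      rw [Function.iterate_succ_apply', ih, av_sub (hP n).1.bd (hP (n + 1)).1.bd,
        Function.iterate_succ_apply', Function.iterate_succ_apply' (f := av 𝒲) (n := n + 1),
        Function.iterate_succ_apply']
  have hDp : ∀ n, PD ((av 𝒲)^[n] δ) := by
    intro n
    induction n with
    | zero => exact hδp
    | succ n ih =>
      rw [Function.iterate_succ_apply']
      exact ih.mean
  -- the values at zero
  obtain ⟨n, hn⟩ : ∃ n, ((av 𝒲)^[n] δ 0).re = 0 := by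
    by_contra hcon
    push Not at hcon
    have h1 : ∀ n, ((av 𝒲)^[n + 1] φ 0).re ≤ ((av 𝒲)^[n] φ 0).re - 1 := by
      intro n
      obtain ⟨a, ha⟩ := (hP n).2 0
      obtain ⟨b, hb⟩ := (hP (n + 1)).2 0
      have h2 := (hDp n).zero_nonneg
      have h3 := hcon n
      rw [hD n] at h2 h3
      simp only [Complex.sub_re, ha, hb, Complex.intCast_re] at h2 h3 ⊢
      have h4 : b < a := by
        rcases lt_or_eq_of_le (sub_nonneg.1 h2) with h5 | h5
        · exact_mod_cast h5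
        · exact absurd (by rw [h5, sub_self]) h3
      have h5 : b ≤ a - 1 := by omega
      exact_mod_cast h5
    have h2 : ∀ n : ℕ, ((av 𝒲)^[n] φ 0).re ≤ (φ 0).re - n := by
      intro n
      induction n with
      | zero => simp
      | succ n ih =>
        have := h1 n
        push_cast
        linarith
    obtain ⟨n, hn⟩ := exists_nat_gt (φ 0).re
    have h3 := h2 n
    have h4 := (hP n).1.zero_nonneg
    linarith
  have hzero : (av 𝒲)^[n] δ = 0 := by
    funext g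
    exact (hDp n).eq_zero hn g
  -- descent
  have hdesc : ∀ n, (av 𝒲)^[n + 1] δ = 0 → av 𝒲 δ = 0 := by
    intro n
    induction n with
    | zero => intro h1; exact h1
    | succ n ih =>
      intro h1
      refine ih ?_
      rw [Function.iterate_succ_apply', Function.iterate_succ_apply'] at h1
      rw [Function.iterate_succ_apply']
      funext g
      refine av_av (hDp n) ?_ g
      rw [h1]
      simp
  refine hdesc n ?_
  have h2 : (av 𝒲)^[n + 1] δ = fun g => (av 𝒲)^[n] δ g - (av 𝒲)^[n] δ g := by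
    rw [Function.iterate_succ_apply', hzero]
    have h3 : (0 : Γ → ℂ) = fun g => (0 : Γ → ℂ) g - (0 : Γ → ℂ) g := by
      funext g
      simp
    rw [h3, av_sub (f := 0) (g := 0) ⟨0, by simp⟩ ⟨0, by simp⟩]
    funext g
    simp
  rw [h2]
  funext g
  exact sub_self _

/-- if `av φ = φ`, the ultrafilter is concentrated on a coset of the periods -/
theorem conc (h : PD φ) (hi : IsI φ) (hfix : av 𝒲 φ = φ) :
    ∃ h₀, ∀ᶠ k in (𝒲 : Filter Γ), φ (k - h₀) = φ 0 := by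
  obtain ⟨G⟩ := gns h
  obtain ⟨z, hz⟩ := G.weak 𝒲
  have h1 : (inner ℂ (z 0) (z 0) : ℂ) = φ 0 := by
    rw [inner_zz h hz, sub_zero, hfix]
  have hsq : ‖z 0‖ ^ 2 = (φ 0).re := by
    rw [← h1]
    exact (inner_self_eq_norm_sq (𝕜 := ℂ) (z 0)).symm
  have h2 : Tendsto (fun k => ‖G.e k - z 0‖ ^ 2) 𝒲 (𝓝 0) := by
    have h3 : ∀ k, ‖G.e k - z 0‖ ^ 2 = 2 * (φ 0).re - 2 * (inner ℂ (z 0) (G.e (0 + k)) : ℂ).re := by
      intro k
      rw [zero_add, @norm_sub_sq ℂ, G.sq k, hsq]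
      have h4 : RCLike.re (inner ℂ (G.e k) (z 0) : ℂ) = (inner ℂ (z 0) (G.e k) : ℂ).re := by
        rw [inner_re_symm]
        rfl
      rw [h4]
      ring
    simp only [h3]
    have h4 := (Complex.continuous_re.tendsto _).comp (hz 0 (z 0))
    have h5 := (h4.const_mul 2).const_sub (2 * (φ 0).re)
    rw [h1, sub_self] at h5
    exact h5
  have h3 : ∀ᶠ k in (𝒲 : Filter Γ), ‖G.e k - z 0‖ ^ 2 < 1 / 4 :=
    h2.eventually_lt_const (by norm_num)
  obtain ⟨h₀, hh₀⟩ := h3.exists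
  refine ⟨h₀, ?_⟩
  filter_upwards [h3] with k hk
  have h4 : ‖G.e k - G.e h₀‖ ^ 2 < 1 := by
    have h5 : G.e k - G.e h₀ = (G.e k - z 0) - (G.e h₀ - z 0) := by abel
    have h6 : ‖G.e k - G.e h₀‖ ≤ ‖G.e k - z 0‖ + ‖G.e h₀ - z 0‖ := by
      rw [h5]
      exact norm_sub_le _ _
    have h7 : ‖G.e k - z 0‖ < 1 / 2 := by
      by_contra hcon
      push Not at hcon
      nlinarith
    have h8 : ‖G.e h₀ - z 0‖ < 1 / 2 := by
      by_contra hcon
      push Not at hcon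
      nlinarith
    have h9 := norm_nonneg (G.e k - G.e h₀)
    nlinarith
  rw [@norm_sub_sq ℂ, G.sq, G.sq] at h4
  have h5 : RCLike.re (inner ℂ (G.e k) (G.e h₀) : ℂ) = (φ (k - h₀)).re := by
    rw [inner_re_symm, G.inner_e]
    rfl
  rw [h5] at h4
  obtain ⟨m, hm⟩ := hi (k - h₀)
  obtain ⟨n, hn⟩ := hi 0
  have h6 := h.norm_le (k - h₀)
  rw [hm, hn] at h4 h6
  rw [hm, hn]
  rw [Complex.norm_intCast, Complex.intCast_re] at h6
  simp only [Complex.intCast_re] at h4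
  have h7 : (m : ℝ) ≤ n := (le_abs_self _).trans h6
  have h8 : (n : ℝ) < m + 1 := by linarith
  have h9 : m ≤ n := by exact_mod_cast h7
  have h10 : n < m + 1 := by exact_mod_cast h8
  have h11 : m = n := by omega
  rw [h11]

/-- if `av φ = 0`, the function vanishes almost everywhere -/
theorem vanish (h : PD φ) (hi : IsI φ) (h0 : av 𝒲 φ = 0) : ∀ᶠ k in (𝒲 : Filter Γ), φ k = 0 := by
  obtain ⟨G⟩ := gns h
  obtain ⟨z, hz⟩ := G.weak 𝒲
  have h1 : z 0 = 0 := by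
    have h2 := inner_zz h hz 0 0
    rw [h0] at h2
    exact inner_self_eq_zero.1 (h2.trans rfl)
  have h2 := hz 0 (G.e 0)
  rw [h1, inner_zero_right] at h2
  have h3 : Tendsto φ 𝒲 (𝓝 0) := h2.congr fun k => by
    rw [G.inner_e]
    congr 1
    abel
  exact (ev_eq hi h3).1

end

end Pool.Agent.Helper49E
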