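import Pool.Agent.Helper49E.Defs
import Pool.Agent.Helper49E.Dec

/-!
# Consequences of the decomposition
-/

set_option autoImplicit false
set_option linter.unusedSectionVars false

namespace Pool.Agent.Helper49E

section
variable {Γ : Type} [AddCommGroup Γ]

/-- a piece of the decomposition -/
structure IsPiece (f : Γ → ℤ) (Δ : AddSubgroup Γ) (c : Γ →₀ ℤ) : Prop where
  pd : Pdi f
  one : 1 ≤ f 0
  mem : ∀ d, d ∈ Δ ↔ f d = f 0
  co : ∀ x, f x = coef Δ c x

theorem coef_add {Δ : AddSubgroup Γ} {c : Γ →₀ ℤ} {d : Γ} (hd : d ∈ Δ) (x : Γ) :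
    coef Δ c (x + d) = coef Δ c x := by
  classical
  unfold coef
  refine Finset.sum_congr rfl fun a _ => ?_
  have h1 : x + d - a ∈ Δ ↔ x - a ∈ Δ := by
    have h2 : x + d - a = (x - a) + d := by abel
    rw [h2]
    exact Δ.add_mem_cancel_right hd
  simp only [h1]

theorem exists_of_coef {Δ : AddSubgroup Γ} {c : Γ →₀ ℤ} {x : Γ} (h : coef Δ c x ≠ 0) :
    ∃ a ∈ c.support, x - a ∈ Δ := by
  classical
  by_contra hcon
  push Not at hcon
  refine h (Finset.sum_eq_zero fun a ha => if_neg (hcon a ha))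

theorem piece {f : Γ → ℤ} (h : Pdi f) (hb : Bas f) (h1 : 1 ≤ f 0) :
    ∃ c, IsPiece f (per h) c := by
  classical
  obtain ⟨s, hs⟩ := hb
  set ρ : Γ → Γ := fun a => (QuotientAddGroup.mk a : Γ ⧸ per h).out with hρ
  have h1' : ∀ a, (QuotientAddGroup.mk (ρ a) : Γ ⧸ per h) = QuotientAddGroup.mk a := fun a =>
    Quotient.out_eq _
  have h2 : ∀ a b : Γ, (QuotientAddGroup.mk a : Γ ⧸ per h) = QuotientAddGroup.mk b ↔
      b - a ∈ per h := fun a b => by
    rw [QuotientAddGroup.eq]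
    have : -a + b = b - a := by abel
    rw [this]
  set t := s.image ρ with ht
  have hinj : ∀ a ∈ t, ∀ b ∈ t, b - a ∈ per h → a = b := by
    intro a ha b hb hab
    obtain ⟨a', -, rfl⟩ := Finset.mem_image.1 ha
    obtain ⟨b', -, rfl⟩ := Finset.mem_image.1 hb
    have h3 := (h2 _ _).2 hab
    rw [h1', h1'] at h3
    rw [hρ]
    simp only
    rw [h3]
  have himg : ∀ x, f x ≠ 0 → ∃ a ∈ t, x - a ∈ per h := by
    intro x hx
    obtain ⟨a, ha, hxa⟩ := hs x hx
    refine ⟨ρ a, Finset.mem_image_of_mem _ ha, ?_⟩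
    have h3 : x - a ∈ per h := hxa
    have h4 : a - ρ a ∈ per h := (h2 _ _).1 (h1' a)
    have h5 : x - ρ a = (x - a) + (a - ρ a) := by abel
    rw [h5]
    exact (per h).add_mem h3 h4
  set c : Γ →₀ ℤ := Finsupp.onFinset t (fun a => if a ∈ t then f a else 0) (fun a ha => by
    by_contra hcon
    exact ha (if_neg hcon)) with hc
  have hca : ∀ a ∈ t, c a = f a := fun a ha => if_pos ha
  have hcs : ∀ a ∈ c.support, a ∈ t ∧ f a ≠ 0 := by
    intro a ha
    rw [Finsupp.mem_support_iff] at ha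
    have h3 : a ∈ t := by
      by_contra hcon
      exact ha (if_neg hcon)
    rw [hca a h3] at ha
    exact ⟨h3, ha⟩
  have hper : ∀ x a, x - a ∈ per h → f x = f a := by
    intro x a hxa
    have h3 := period h hxa a
    have h4 : a + (x - a) = x := by abel
    rw [h4] at h3
    exact h3
  refine ⟨c, h, h1, fun d => mem_per h, fun x => ?_⟩
  unfold coef
  by_cases hx : f x = 0
  · rw [hx]
    symm
    refine Finset.sum_eq_zero fun a ha => ?_
    rw [if_neg]
    intro hxa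
    exact (hcs a ha).2 ((hper x a hxa).symm.trans hx)
  · obtain ⟨a, ha, hxa⟩ := himg x hx
    have h3 : f x = f a := hper x a hxa
    have h4 : a ∈ c.support := by
      rw [Finsupp.mem_support_iff, hca a ha, ← h3]
      exact hx
    rw [Finset.sum_eq_single_of_mem a h4, if_pos hxa, hca a ha, h3]
    intro b hb hba
    rw [if_neg]
    intro hxb
    refine hba (hinj b (hcs b hb).1 a ha ?_)
    have h5 : a - b = (x - b) - (x - a) := by abel
    rw [h5]
    exact (per h).sub_mem hxb hxa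

/-- the decomposition in normal form -/
theorem pieces {φ : Γ → ℤ} (h : Pdi φ) {N : ℕ} (h0 : φ 0 = N) :
    ∃ (n : ℕ) (f : Fin n → Γ → ℤ) (Δ : Fin n → AddSubgroup Γ) (c : Fin n → Γ →₀ ℤ), n ≤ N ∧
      (∀ i, IsPiece (f i) (Δ i) (c i)) ∧ ∀ x, φ x = ∑ i, f i x := by
  obtain ⟨l, h1, h2, h3⟩ := decompose N φ h h0
  have h4 : ∀ i : Fin l.length, Pdi (l.get i) ∧ Bas (l.get i) ∧ 1 ≤ l.get i 0 :=
    fun i => h1 _ (List.get_mem l i)
  choose c hc using fun i => piece (h4 i).1 (h4 i).2.1 (h4 i).2.2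
  refine ⟨l.length, fun i => l.get i, fun i => per (h4 i).1, c, h2, hc, fun x => ?_⟩
  rw [h3]
  exact (Fin.sum_univ_fun_getElem l fun f => f x).symm

variable {n : ℕ} {f : Fin n → Γ → ℤ} {Δ : Fin n → AddSubgroup Γ} {c : Fin n → Γ →₀ ℤ}

/-- points of a line -/
theorem line_fin {Δ : AddSubgroup Γ} {c : Γ →₀ ℤ} {l : Γ} (h : ∀ d : ℕ, 1 ≤ d → d • l ∉ Δ)
    (x : Γ) : {j : ℤ | coef Δ c (x + j • l) ≠ 0}.Finite := by
  have h1 : {j : ℤ | coef Δ c (x + j • l) ≠ 0} ⊆
      ⋃ a ∈ c.support, {j : ℤ | x + j • l - a ∈ Δ} := by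
    intro j hj
    obtain ⟨a, ha, hja⟩ := exists_of_coef hj
    exact Set.mem_iUnion₂.2 ⟨a, ha, hja⟩
  refine Set.Finite.subset (Set.Finite.biUnion (Finset.finite_toSet _) fun a _ => ?_) h1
  refine Set.Subsingleton.finite fun j hj j' hj' => ?_
  have h2 : ∀ i : ℤ, i • l ∈ Δ → i = 0 := by
    intro i hi
    by_contra hne
    refine h i.natAbs (by omega) ?_
    rcases Int.natAbs_eq i with h3 | h3
    · rw [h3] at hi
      rwa [natCast_zsmul] at hi
    · rw [h3] at hi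
      rw [neg_smul, natCast_zsmul] at hi
      simpa using Δ.neg_mem hi
  have h3 : (j - j') • l ∈ Δ := by
    have h4 : (j - j') • l = (x + j • l - a) - (x + j' • l - a) := by
      rw [sub_smul]
      abel
    rw [h4]
    exact Δ.sub_mem hj hj'
  have := h2 _ h3
  omega

/-- a common period in a direction -/
theorem lines (Δ : Fin n → AddSubgroup Γ) (c : Fin n → Γ →₀ ℤ) (l : Γ) :
    ∃ P : ℕ, 1 ≤ P ∧ ∀ x, {j : ℤ | ∑ i, coef (Δ i) (c i) (x + (j + P) • l) ≠
      ∑ i, coef (Δ i) (c i) (x + j • l)}.Finite := by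
  classical
  have h1 : ∀ i, ∃ d : ℕ, 1 ≤ d ∧ (d • l ∈ Δ i ∨ ∀ d : ℕ, 1 ≤ d → d • l ∉ Δ i) := by
    intro i
    by_cases h : ∃ d : ℕ, 1 ≤ d ∧ d • l ∈ Δ i
    · obtain ⟨d, h1, h2⟩ := h
      exact ⟨d, h1, Or.inl h2⟩
    · push Not at h
      exact ⟨1, le_rfl, Or.inr h⟩
  choose d hd1 hd2 using h1
  have hP : 1 ≤ ∏ i, d i := Nat.one_le_iff_ne_zero.2 (Finset.prod_ne_zero_iff.2 fun i _ => by
    have := hd1 i
    omega)
  refine ⟨∏ i, d i, hP, fun x => ?_⟩
  have h2 : {j : ℤ | ∑ i, coef (Δ i) (c i) (x + (j + (∏ i, d i : ℕ)) • l) ≠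
      ∑ i, coef (Δ i) (c i) (x + j • l)} ⊆
      ⋃ i, {j : ℤ | coef (Δ i) (c i) (x + (j + (∏ i, d i : ℕ)) • l) ≠
        coef (Δ i) (c i) (x + j • l)} := by
    intro j hj
    by_contra hcon
    refine hj (Finset.sum_congr rfl fun i _ => ?_)
    by_contra h3
    exact hcon (Set.mem_iUnion.2 ⟨i, h3⟩)
  refine Set.Finite.subset (Set.finite_iUnion fun i => ?_) h2
  rcases hd2 i with h3 | h3
  · have h4 : ((∏ i, d i : ℕ) : ℤ) • l ∈ Δ i := by
      rw [natCast_zsmul, ← Finset.mul_prod_erase _ _ (Finset.mem_univ i), mul_comm, mul_smul]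
      exact (Δ i).nsmul_mem h3 _
    have h5 : {j : ℤ | coef (Δ i) (c i) (x + (j + (∏ i, d i : ℕ)) • l) ≠
        coef (Δ i) (c i) (x + j • l)} = ∅ := by
      ext j
      simp only [Set.mem_ofPred_eq, Set.mem_empty_iff_false, iff_false, not_not]
      rw [add_smul, ← add_assoc]
      exact coef_add h4 _
    rw [h5]
    exact Set.finite_empty
  · have h4 := line_fin (c := c i) h3 x
    have h5 := line_fin (c := c i) h3 (x + ((∏ i, d i : ℕ) : ℤ) • l)
    refine (h4.union h5).subset fun j hj => ?_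
    by_contra hcon
    rw [Set.mem_union, not_or] at hcon
    simp only [Set.mem_ofPred_eq, not_not] at hcon
    refine hj ?_
    rw [hcon.1, ← hcon.2]
    congr 1
    rw [add_smul]
    abel

/-- a direction of poles -/
theorem poles (h : ∀ i, IsPiece (f i) (Δ i) (c i)) {i₀ : Fin n} {l : Γ} (hl : l ∈ Δ i₀) :
    ∃ J : ℕ, 1 ≤ J ∧ ∀ j : ℕ, 1 ≤ j → 1 ≤ ∑ i, f i (j • J • l) := by
  classical
  have h1 : ∀ i, ∃ d b : ℕ, 1 ≤ d ∧ ∀ m : ℕ, d ∣ m → b ≤ m → 0 ≤ f i (m • l) := by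
    intro i
    by_cases h1 : ∃ d : ℕ, 1 ≤ d ∧ d • l ∈ Δ i
    · obtain ⟨d, h1, h2⟩ := h1
      refine ⟨d, 0, h1, fun m hm _ => ?_⟩
      obtain ⟨k, rfl⟩ := hm
      have h3 : (d * k) • l ∈ Δ i := by
        rw [mul_comm, mul_smul]
        exact (Δ i).nsmul_mem h2 _
      rw [((h i).mem _).1 h3]
      have := (h i).one
      omega
    · push Not at h1
      have h2 := line_fin (c := c i) h1 0
      have h3 : {m : ℕ | f i (m • l) ≠ 0}.Finite := by
        refine Set.Finite.of_finite_image (f := fun m : ℕ => (m : ℤ)) (h2.subset ?_)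
          (Nat.cast_injective.injOn)
        rintro _ ⟨m, hm, rfl⟩
        simp only [Set.mem_ofPred_eq, zero_add, natCast_zsmul]
        rw [← (h i).co]
        exact hm
      obtain ⟨b, hb⟩ := h3.bddAbove
      refine ⟨1, b + 1, le_rfl, fun m _ hm => ?_⟩
      by_contra hcon
      have h4 : m ≤ b := hb (show f i (m • l) ≠ 0 by
        intro h0
        exact hcon (le_of_eq h0.symm))
      omega
  choose d b hd hdb using h1
  have hP : 1 ≤ ∏ i, d i := Nat.one_le_iff_ne_zero.2 (Finset.prod_ne_zero_iff.2 fun i _ => by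
    have := hd i
    omega)
  refine ⟨(∏ i, d i) * (∑ i, b i + 1), Nat.mul_pos hP (Nat.succ_pos _), fun j hj => ?_⟩
  set J := (∏ i, d i) * (∑ i, b i + 1) with hJ
  have h2 : ∀ i, 0 ≤ f i (j • J • l) := by
    intro i
    rw [← mul_smul]
    refine hdb i _ ?_ ?_
    · exact Dvd.dvd.mul_left (Dvd.dvd.mul_right (Finset.dvd_prod_of_mem _ (Finset.mem_univ i)) _) _
    · have h3 : b i ≤ ∑ i, b i := Finset.single_le_sum (fun _ _ => Nat.zero_le _)
        (Finset.mem_univ i)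
      calc b i ≤ ∑ i, b i + 1 := by omega
        _ ≤ J := Nat.le_mul_of_pos_left _ hP
        _ ≤ j * J := Nat.le_mul_of_pos_left _ hj
  have h3 : j • J • l ∈ Δ i₀ := (Δ i₀).nsmul_mem ((Δ i₀).nsmul_mem hl _) _
  have h4 : 1 ≤ f i₀ (j • J • l) := by
    rw [((h i₀).mem _).1 h3]
    exact (h i₀).one
  exact h4.trans (Finset.single_le_sum (fun i _ => h2 i) (Finset.mem_univ i₀))

/-- positivity of the average over a finite set of differences -/
theorem Pdi.avg_nonneg {φ : Γ → ℤ} (h : Pdi φ) (s : Finset Γ) :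
    0 ≤ ∑ a ∈ s, ∑ b ∈ s, φ (b - a) := by
  classical
  have h1 := PD.nonneg h (Finsupp.onFinset s (fun a => if a ∈ s then 1 else 0) fun a ha => by
    by_contra hcon
    exact ha (if_neg hcon))
  set c : Γ →₀ ℂ := Finsupp.onFinset s (fun a => if a ∈ s then 1 else 0) fun a ha => by
    by_contra hcon
    exact ha (if_neg hcon) with hc
  have hc1 : ∀ a ∈ s, c a = 1 := fun a ha => if_pos ha
  have h2 : (c.sum fun a z => c.sum fun b w => (starRingEnd ℂ) z * w * ((φ (b - a) : ℤ) : ℂ)) =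
      ((∑ a ∈ s, ∑ b ∈ s, φ (b - a) : ℤ) : ℂ) := by
    have hsub : c.support ⊆ s := Finsupp.support_onFinset_subset
    rw [Finsupp.sum_of_support_subset _ hsub _ (fun a _ => by simp)]
    push_cast
    refine Finset.sum_congr rfl fun a ha => ?_
    rw [Finsupp.sum_of_support_subset _ hsub _ (fun a _ => by simp)]
    refine Finset.sum_congr rfl fun b hb => ?_
    rw [hc1 a ha, hc1 b hb]
    simp
  rw [h2, Complex.intCast_re] at h1
  exact_mod_cast h1

/-- if the total function vanishes on the differences of a set of periods of one piece, the set is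
small -/
theorem small (h : ∀ i, IsPiece (f i) (Δ i) (c i)) {N : ℕ} (i₀ : Fin n) (s : Finset Γ)
    (hs : ∀ a ∈ s, a ∈ Δ i₀)
    (hN : ∑ i, f i 0 = N) (h0 : ∀ a ∈ s, ∀ b ∈ s, a ≠ b → ∑ i, f i (b - a) = 0) :
    s.card ≤ N := by
  classical
  rcases s.eq_empty_or_nonempty with rfl | hne
  · simp
  have h1 : ∑ a ∈ s, ∑ b ∈ s, ∑ i, f i (b - a) = s.card * N := by
    have h2 : ∀ a ∈ s, ∀ b ∈ s, ∑ i, f i (b - a) = if a = b then (N : ℤ) else 0 := by
      intro a ha b hb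
      split_ifs with hab
      · rw [hab, sub_self, hN]
      · exact h0 a ha b hb hab
    rw [Finset.sum_congr rfl fun a ha => Finset.sum_congr rfl fun b hb => h2 a ha b hb]
    simp
  have h2 : ∑ a ∈ s, ∑ b ∈ s, ∑ i, f i (b - a) = ∑ i, ∑ a ∈ s, ∑ b ∈ s, f i (b - a) := by
    rw [Finset.sum_comm]
    refine (Finset.sum_congr rfl fun a _ => Finset.sum_comm).trans ?_
    rw [Finset.sum_comm]
    exact Finset.sum_congr rfl fun i _ => Finset.sum_comm
  have h3 : ∑ a ∈ s, ∑ b ∈ s, f i₀ (b - a) ≤ ∑ i, ∑ a ∈ s, ∑ b ∈ s, f i (b - a) :=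
    Finset.single_le_sum (f := fun i => ∑ a ∈ s, ∑ b ∈ s, f i (b - a))
      (fun i _ => (h i).pd.avg_nonneg s) (Finset.mem_univ i₀)
  have h4 : ∑ a ∈ s, ∑ b ∈ s, f i₀ (b - a) = s.card * (s.card * f i₀ 0) := by
    rw [Finset.sum_congr rfl fun a ha => Finset.sum_congr rfl fun b hb =>
      ((h i₀).mem _).1 ((Δ i₀).sub_mem (hs b hb) (hs a ha))]
    simp
  have h5 : (0 : ℤ) < s.card := by exact_mod_cast hne.card_pos
  have h6 := (h i₀).one
  rw [← h2, h1, h4] at h3
  have h7 : (s.card : ℤ) * f i₀ 0 ≤ N := le_of_mul_le_mul_left h3 h5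
  have h8 : (s.card : ℤ) ≤ N := by nlinarith
  exact_mod_cast h8

end

end Pool.Agent.Helper49E
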